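import Pool.Agent.N596.LA.Sum
import Pool.Agent.N621.SP.Asym

/-! Hermite invariants of lattices with small clusters: asymptotics (for MP_ef2672_gt). -/

open MeasureTheory Metric Filter Set Matrix
open scoped Topology ENNReal

namespace Pool.Agent.N596.LA

open Pool.Agent.H160R3.Herm Pool.Agent.TH220.HG

/-- the supremum of the Hermite invariants of the lattices whose clusters of level `β` have at most
`K` points -/
noncomputable def clusterHermite (n : ℕ) (β : ℝ) (K : ℕ) : ℝ :=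
  sSup {g | ∃ A : Matrix (Fin n) (Fin n) ℝ, A.det ≠ 0 ∧ ClustersLE A β K ∧ gam A = g}

/-- the squared lengths of the nonzero vectors shorter than `β λ₁` -/
def lengths {n : ℕ} (A : Matrix (Fin n) (Fin n) ℝ) (β : ℝ) : Set ℝ :=
  {l | l < β ^ 2 * minSq A ∧ ∃ w : Fin n → ℤ, w ≠ 0 ∧ nsq A w = l}

theorem clusterHermite_bdd {n : ℕ} (hn : 0 < n) (β : ℝ) (K : ℕ) :
    BddAbove {g | ∃ A : Matrix (Fin n) (Fin n) ℝ, A.det ≠ 0 ∧ ClustersLE A β K ∧ gam A = g} :=
  ⟨hermite n, by rintro _ ⟨A, hA, -, rfl⟩; exact le_hermite hn A hA⟩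

theorem le_clusterHermite {n : ℕ} (hn : 0 < n) {β : ℝ} {K : ℕ} {A : Matrix (Fin n) (Fin n) ℝ}
    (hA : A.det ≠ 0) (hK : ClustersLE A β K) : gam A ≤ clusterHermite n β K :=
  le_csSup (clusterHermite_bdd hn β K) ⟨A, hA, hK, rfl⟩

theorem clusterHermite_le_hermite {n : ℕ} (hn : 0 < n) (β : ℝ) (K : ℕ) :
    clusterHermite n β K ≤ hermite n :=
  Real.sSup_le (by rintro _ ⟨A, hA, -, rfl⟩; exact le_hermite hn A hA) (hermite_nonneg' n)

theorem ClustersLE.mono {n : ℕ} {A : Matrix (Fin n) (Fin n) ℝ} {β : ℝ} {K K' : ℕ}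
    (h : ClustersLE A β K) (hK : K ≤ K') : ClustersLE A β K' := fun F hF => (h F hF).trans hK

/-- Upper bound for lattices with clusters of at most `2^(κ n)` points. -/
theorem upper_gen {β : ℝ} (hβ : 0 < β) {m : ℕ} (hm : 1 ≤ m) {κ a : ℝ} (hκ : 0 ≤ κ)
    (ha : (2 : ℝ) ^ (2 * κ * m) * ((1 + 1 / m) / (Real.pi * Real.exp 1 * β ^ 2)) < a) :
    ∀ᶠ n : ℕ in atTop, ∀ A : Matrix (Fin n) (Fin n) ℝ, A.det ≠ 0 →
      ∀ K : ℕ, (K : ℝ) ≤ (2 : ℝ) ^ (κ * n) → ClustersLE A β K → gam A / n ≤ a := by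
  have hm' : (0 : ℝ) < m := by exact_mod_cast hm
  set L : ℝ := (1 + 1 / m) / (Real.pi * Real.exp 1 * β ^ 2) with hL
  have hL0 : 0 < L := by positivity
  have h1 : Tendsto (fun n : ℕ => (3 * ((m : ℝ) + 1) ^ m) ^ ((2 : ℝ) / n)) atTop (𝓝 1) := by
    have h2 : Tendsto (fun n : ℕ => (2 : ℝ) / n) atTop (𝓝 0) :=
      tendsto_const_div_atTop_nhds_zero_nat 2
    have h3 := (Real.continuous_const_rpow (show (3 * ((m : ℝ) + 1) ^ m) ≠ 0 by positivity)).tendsto 0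
    rw [Real.rpow_zero] at h3
    exact h3.comp h2
  have h2 : Tendsto (fun n : ℕ => (n : ℝ) ^ ((2 : ℝ) / n)) atTop (𝓝 1) := by
    have h3 := (tendsto_rpow_div_mul_add 2 1 0 (by norm_num)).comp tendsto_natCast_atTop_atTop
    refine h3.congr fun n => ?_
    simp
  have h3 : Tendsto (fun n : ℕ => (3 * ((m : ℝ) + 1) ^ m) ^ ((2 : ℝ) / n) * (n : ℝ) ^ ((2 : ℝ) / n) *
      ((2 : ℝ) ^ (2 * κ * m) * L)) atTop (𝓝 (1 * 1 * ((2 : ℝ) ^ (2 * κ * m) * L))) :=
    (h1.mul h2).mul_const _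
  rw [one_mul, one_mul] at h3
  filter_upwards [h3.eventually (gt_mem_nhds ha), eventually_gt_atTop 0] with n hn hn0 A hA K hK hc
  have hn' : (0 : ℝ) < n := by exact_mod_cast hn0
  refine (gam_upper hn0 hA hβ hm hc).trans (le_trans ?_ hn.le)
  have ht : 1 ≤ (2 : ℝ) ^ (κ * n) := Real.one_le_rpow (by norm_num) (by positivity)
  have h5 : (((K + m).choose m : ℕ) : ℝ) ≤ (((m : ℝ) + 1) * (2 : ℝ) ^ (κ * n)) ^ m := by
    calc (((K + m).choose m : ℕ) : ℝ) ≤ (((K + m) ^ m : ℕ) : ℝ) := by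
          exact_mod_cast Nat.choose_le_pow _ _
      _ = ((K : ℝ) + m) ^ m := by push_cast; rfl
      _ ≤ _ := by
          apply pow_le_pow_left₀ (by positivity)
          nlinarith
  have h6 : (3 * n * (K + m).choose m : ℝ) ≤
      (3 * ((m : ℝ) + 1) ^ m) * n * (2 : ℝ) ^ (κ * n * m) := by
    calc (3 * n * (K + m).choose m : ℝ) ≤ 3 * n * (((m : ℝ) + 1) * (2 : ℝ) ^ (κ * n)) ^ m :=
          mul_le_mul_of_nonneg_left h5 (by positivity)
      _ = _ := by
          rw [mul_pow, ← Real.rpow_natCast ((2 : ℝ) ^ (κ * n)) m, ← Real.rpow_mul (by norm_num)]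
          ring
  have h7 : (3 * n * (K + m).choose m : ℝ) ^ ((2 : ℝ) / n) ≤
      (3 * ((m : ℝ) + 1) ^ m) ^ ((2 : ℝ) / n) * (n : ℝ) ^ ((2 : ℝ) / n) *
        (2 : ℝ) ^ (2 * κ * m) := by
    refine (Real.rpow_le_rpow (by positivity) h6 (by positivity)).trans (le_of_eq ?_)
    rw [Real.mul_rpow (by positivity) (by positivity), Real.mul_rpow (by positivity) (by positivity),
      ← Real.rpow_mul (by norm_num)]
    congr 2
    field_simp
  calc (3 * n * (K + m).choose m : ℝ) ^ ((2 : ℝ) / n) * L ≤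
      ((3 * ((m : ℝ) + 1) ^ m) ^ ((2 : ℝ) / n) * (n : ℝ) ^ ((2 : ℝ) / n) *
        (2 : ℝ) ^ (2 * κ * m)) * L := mul_le_mul_of_nonneg_right h7 hL0.le
    _ = _ := by ring

/-- For subexponential clusters. -/
theorem upper_sub {β : ℝ} (hβ : 0 < β) {a : ℝ} (ha : 1 / (Real.pi * Real.exp 1 * β ^ 2) < a) :
    ∃ κ : ℝ, 0 < κ ∧ ∀ᶠ n : ℕ in atTop, ∀ A : Matrix (Fin n) (Fin n) ℝ, A.det ≠ 0 →
      ∀ K : ℕ, (K : ℝ) ≤ (2 : ℝ) ^ (κ * n) → ClustersLE A β K → gam A / n ≤ a := by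
  have h1 : Tendsto (fun m : ℕ => (1 + 1 / (m : ℝ)) / (Real.pi * Real.exp 1 * β ^ 2)) atTop
      (𝓝 ((1 + 0) / (Real.pi * Real.exp 1 * β ^ 2))) :=
    (tendsto_const_nhds.add tendsto_one_div_atTop_nhds_zero_nat).div_const _
  rw [add_zero] at h1
  obtain ⟨m, hm1, hm⟩ := ((h1.eventually (gt_mem_nhds ha)).and (eventually_ge_atTop 1)).exists
  set L : ℝ := (1 + 1 / (m : ℝ)) / (Real.pi * Real.exp 1 * β ^ 2) with hL
  have h2 : Tendsto (fun κ : ℝ => (2 : ℝ) ^ (2 * κ * m) * L) (𝓝[>] 0)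
      (𝓝 ((2 : ℝ) ^ (2 * (0 : ℝ) * m) * L)) := by
    apply tendsto_nhdsWithin_of_tendsto_nhds
    have hc : Continuous (fun κ : ℝ => (2 : ℝ) ^ (2 * κ * m) * L) :=
      ((Real.continuous_const_rpow (by norm_num : (2 : ℝ) ≠ 0)).comp (by fun_prop)).mul_const _
    exact hc.tendsto 0
  rw [mul_zero, zero_mul, Real.rpow_zero, one_mul] at h2
  obtain ⟨κ, hκ1, hκ⟩ := ((h2.eventually (gt_mem_nhds hm1)).and self_mem_nhdsWithin).exists
  exact ⟨κ, hκ, upper_gen hβ hm (le_of_lt hκ) hκ1⟩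

/-- the function `((k+1)/D)^((k+1)/(k+2)) / (k+2)` tends to `1/D` -/
theorem tendsto_lower {D : ℝ} (hD : 0 < D) :
    Tendsto (fun k : ℕ => (((k + 1 : ℕ) : ℝ) / D) ^ (((k + 1 : ℕ) : ℝ) / ((k + 2 : ℕ) : ℝ)) /
      ((k + 2 : ℕ) : ℝ)) atTop (𝓝 (1 / D)) := by
  have h1 : Tendsto (fun n : ℕ => (n : ℝ) ^ (-(1 : ℝ) / (1 * n + 1))) atTop (𝓝 1) :=
    (tendsto_rpow_div_mul_add (-1) 1 1 (by norm_num)).comp tendsto_natCast_atTop_atTop
  have h2 : Tendsto (fun n : ℕ => (1 / D) ^ (-(1 : ℝ) / (n + 1))) atTop (𝓝 1) := by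
    have h3 : Tendsto (fun n : ℕ => -(1 : ℝ) / (n + 1)) atTop (𝓝 0) := by
      have := (tendsto_one_div_add_atTop_nhds_zero_nat (𝕜 := ℝ)).neg
      rw [neg_zero] at this
      refine this.congr fun n => ?_
      ring
    have h4 := (Real.continuous_const_rpow (show (1 / D) ≠ 0 by positivity)).tendsto 0
    rw [Real.rpow_zero] at h4
    exact h4.comp h3
  have h3 : Tendsto (fun n : ℕ => (n : ℝ) / (n + 1)) atTop (𝓝 1) :=
    tendsto_natCast_div_add_atTop (1 : ℝ)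
  have h4 : Tendsto (fun n : ℕ => ((n : ℝ) ^ (-(1 : ℝ) / (1 * n + 1)) *
      (1 / D) ^ (-(1 : ℝ) / (n + 1))) * ((n : ℝ) / (n + 1)) * (1 / D)) atTop
      (𝓝 (1 * 1 * 1 * (1 / D))) := ((h1.mul h2).mul h3).mul_const _
  rw [one_mul, one_mul, one_mul] at h4
  refine (h4.comp (tendsto_add_atTop_nat 1)).congr fun k => ?_
  simp only [Function.comp_apply]
  have hk : (0 : ℝ) < ((k + 1 : ℕ) : ℝ) := by positivity
  have hk2 : ((k + 2 : ℕ) : ℝ) = ((k + 1 : ℕ) : ℝ) + 1 := by push_cast; ring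
  rw [hk2]
  set x : ℝ := ((k + 1 : ℕ) : ℝ) with hx
  have e1 : x / (x + 1) = 1 + -1 / (x + 1) := by field_simp; ring
  have e2 : (x / D) ^ (x / (x + 1)) = (x / D) * ((x / D) ^ (-1 / (x + 1))) := by
    rw [e1, Real.rpow_add (by positivity), Real.rpow_one]
  have e3 : (x / D) ^ (-1 / (x + 1)) = x ^ (-1 / (x + 1)) * (1 / D) ^ (-1 / (x + 1)) := by
    rw [← Real.mul_rpow hk.le (by positivity)]
    congr 1
    ring
  rw [e2, e3, one_mul]
  ring

/-- Lattices with bounded clusters and few lengths. -/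
theorem exists_lattice {β c : ℝ} (hβ : √2 ≤ β) (hc : c < 1 / (Real.pi * Real.exp 1 * β ^ 2)) :
    ∃ K C : ℕ, ∀ᶠ n : ℕ in atTop, ∃ A : Matrix (Fin n) (Fin n) ℝ, A.det ≠ 0 ∧
      ClustersLE A β K ∧ c ≤ gam A / n ∧
      ∀ t : ℝ, 0 < t → (lengths A t).encard ≤ ((⌈t⌉₊ + 1) * (⌈t ^ 2⌉₊ * (C * n) + 1) : ℕ) := by
  have hs2 : 0 < √(2 : ℝ) := Real.sqrt_pos.2 (by norm_num)
  have hβ0 : 0 < β := lt_of_lt_of_le hs2 hβ
  -- choose `s > β / √2` with `c < 1 / (2 π e s²)`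
  obtain ⟨s, hs, hcs⟩ : ∃ s : ℝ, β / √2 < s ∧ c < 1 / (2 * Real.pi * Real.exp 1 * s ^ 2) := by
    have h1 : Tendsto (fun s : ℝ => 1 / (2 * Real.pi * Real.exp 1 * s ^ 2)) (𝓝[>] (β / √2))
        (𝓝 (1 / (2 * Real.pi * Real.exp 1 * (β / √2) ^ 2))) := by
      apply tendsto_nhdsWithin_of_tendsto_nhds
      apply Tendsto.div tendsto_const_nhds _ (by positivity)
      exact (tendsto_id.pow 2).const_mul _
    have h2 : 1 / (2 * Real.pi * Real.exp 1 * (β / √2) ^ 2) = 1 / (Real.pi * Real.exp 1 * β ^ 2) := by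
      rw [div_pow, Real.sq_sqrt (by norm_num)]
      congr 1
      ring
    rw [h2] at h1
    obtain ⟨s, h3, h4⟩ := ((h1.eventually (lt_mem_nhds hc)).and self_mem_nhdsWithin).exists
    exact ⟨s, h4, h3⟩
  have hs0 : 0 < s := lt_trans (by positivity) hs
  obtain ⟨K, M, hKM⟩ := exists_rand hβ hs
  set D : ℝ := 2 * Real.pi * Real.exp 1 * s ^ 2 with hD
  have hD0 : 0 < D := by positivity
  have hev := (tendsto_lower hD0).eventually (lt_mem_nhds hcs)
  refine ⟨K * (2 * ⌈β⌉₊ + 1), M, ?_⟩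
  have key : ∀ᶠ k : ℕ in atTop, ∃ A : Matrix (Fin (k + 2)) (Fin (k + 2)) ℝ, A.det ≠ 0 ∧
      ClustersLE A β (K * (2 * ⌈β⌉₊ + 1)) ∧ c ≤ gam A / ((k + 2 : ℕ) : ℝ) ∧
      ∀ t : ℝ, 0 < t → (lengths A t).encard ≤
        ((⌈t⌉₊ + 1) * (⌈t ^ 2⌉₊ * (M * (k + 2)) + 1) : ℕ) := by
    filter_upwards [hKM, hev] with k hk hkc
    obtain ⟨B, T, hT, hTM, hint, hdet, hdetB, hmin, hcl⟩ := hk
    have hms := minSq_sumMat hmin
    refine ⟨sumMat B T, ?_, clustersLE_sumMat hT hβ0 hmin hcl, ?_, ?_⟩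
    · rw [det_sumMat]
      positivity
    · refine le_trans hkc.le (le_of_eq ?_)
      congr 1
      rw [gam, hms, det_sumMat, abs_of_pos (by positivity), hdetB]
      set κ : ℝ := √(2 * Real.pi * Real.exp 1 / ((k + 1 : ℕ) : ℝ)) with hκ
      have hk1 : (0 : ℝ) < ((k + 1 : ℕ) : ℝ) := by positivity
      have hk2 : (0 : ℝ) < ((k + 2 : ℕ) : ℝ) := by positivity
      have hκ0 : 0 < κ := Real.sqrt_pos.2 (by positivity)
      have e1 : (κ * s * T) ^ (k + 1) * T = (κ * s) ^ (k + 1) * T ^ (k + 2) := by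
        rw [mul_pow (κ * s) T (k + 1)]
        ring
      have e2 : (((κ * s) ^ (k + 1) * T ^ (k + 2)) : ℝ) ^ ((2 : ℝ) / ((k + 2 : ℕ) : ℝ)) =
          ((κ * s) ^ 2) ^ (((k + 1 : ℕ) : ℝ) / ((k + 2 : ℕ) : ℝ)) * T ^ 2 := by
        rw [Real.mul_rpow (by positivity) (by positivity), ← Real.rpow_natCast T (k + 2),
          ← Real.rpow_mul hT.le, ← Real.rpow_natCast (κ * s) (k + 1), ← Real.rpow_mul (by positivity),
          ← Real.rpow_natCast (κ * s) 2, ← Real.rpow_mul (by positivity), ← Real.rpow_natCast T 2]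
        congr 2
        · push_cast; ring
        · push_cast; field_simp
      rw [e1, e2]
      have e3 : (κ * s) ^ 2 = (((k + 1 : ℕ) : ℝ) / D)⁻¹ := by
        rw [mul_pow, hκ, Real.sq_sqrt (by positivity), hD]
        field_simp
      rw [e3, Real.inv_rpow (by positivity)]
      field_simp
    · intro t ht
      set b : ℕ := ⌈t⌉₊ with hb
      set N : ℕ := ⌈t ^ 2⌉₊ * (M * (k + 2)) with hN
      -- the values
      have hsub : lengths (sumMat B T) t ⊆
          (((Finset.range (b + 1)) ×ˢ (Finset.range (N + 1))).image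
            (fun q => (q.2 : ℝ) + T ^ 2 * (q.1 : ℝ) ^ 2) : Finset ℝ) := by
        rintro l ⟨hl, w, -, rfl⟩
        rw [nsq_sumMat] at hl ⊢
        rw [hms] at hl
        obtain ⟨u, hu⟩ := hint (fstPart w)
        have hu0 : 0 ≤ u := by
          have := nsq_nonneg B (fstPart w)
          rw [hu] at this
          exact_mod_cast this
        have h0 : 0 ≤ T ^ 2 * (w (Fin.natAdd (k + 1) 0) : ℝ) ^ 2 := by positivity
        have h1 : (w (Fin.natAdd (k + 1) 0) : ℝ) ^ 2 < t ^ 2 := by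
          have h2 := nsq_nonneg B (fstPart w)
          have h3 : T ^ 2 * (w (Fin.natAdd (k + 1) 0) : ℝ) ^ 2 < T ^ 2 * t ^ 2 := by nlinarith
          exact lt_of_mul_lt_mul_left h3 (by positivity)
        have h2 : (w (Fin.natAdd (k + 1) 0)).natAbs < b + 1 := by
          have h3 := abs_lt_of_sq_lt_sq h1 ht.le
          have h4 : ((w (Fin.natAdd (k + 1) 0)).natAbs : ℝ) ≤ b := by
            rw [Nat.cast_natAbs]
            push_cast
            exact h3.le.trans (Nat.le_ceil t)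
          have : (w (Fin.natAdd (k + 1) 0)).natAbs ≤ b := by exact_mod_cast h4
          omega
        have h3 : u.toNat < N + 1 := by
          have h4 : (u : ℝ) ≤ N := by
            rw [← hu]
            calc nsq B (fstPart w) ≤ t ^ 2 * T ^ 2 := by linarith
              _ ≤ (⌈t ^ 2⌉₊ : ℝ) * (M * ((k + 1 : ℕ) : ℝ)) :=
                  mul_le_mul (Nat.le_ceil _) hTM (by positivity) (by positivity)
              _ ≤ (N : ℝ) := by
                  rw [hN]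
                  push_cast
                  apply mul_le_mul_of_nonneg_left _ (by positivity)
                  apply mul_le_mul_of_nonneg_left _ (by positivity)
                  linarith
          have h5 : u ≤ N := by exact_mod_cast h4
          omega
        rw [Finset.coe_image]
        refine ⟨((w (Fin.natAdd (k + 1) 0)).natAbs, u.toNat), ?_, ?_⟩
        · rw [Finset.mem_coe, Finset.mem_product, Finset.mem_range, Finset.mem_range]
          exact ⟨h2, h3⟩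
        · simp only
          rw [hu]
          congr 1
          · have : ((u.toNat : ℤ) : ℝ) = (u : ℝ) := by rw [Int.toNat_of_nonneg hu0]
            exact_mod_cast this
          · congr 1
            rw [Nat.cast_natAbs]
            push_cast
            exact sq_abs _
      refine (Set.encard_le_encard hsub).trans ?_
      rw [Set.encard_coe_eq_coe_finsetCard]
      have h6 : (((Finset.range (b + 1)) ×ˢ (Finset.range (N + 1))).image
            (fun q => (q.2 : ℝ) + T ^ 2 * (q.1 : ℝ) ^ 2)).card ≤ (b + 1) * (N + 1) := by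
        refine Finset.card_image_le.trans ?_
        rw [Finset.card_product, Finset.card_range, Finset.card_range]
      exact_mod_cast h6
  have h2 : ∀ᶠ n : ℕ in atTop, ∃ k, n = k + 2 ∧ ∃ A : Matrix (Fin (k + 2)) (Fin (k + 2)) ℝ,
      A.det ≠ 0 ∧ ClustersLE A β (K * (2 * ⌈β⌉₊ + 1)) ∧ c ≤ gam A / ((k + 2 : ℕ) : ℝ) ∧
      ∀ t : ℝ, 0 < t → (lengths A t).encard ≤
        ((⌈t⌉₊ + 1) * (⌈t ^ 2⌉₊ * (M * (k + 2)) + 1) : ℕ) := by
    rw [eventually_atTop] at key ⊢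
    obtain ⟨k₀, hk₀⟩ := key
    refine ⟨k₀ + 2, fun n hn => ⟨n - 2, by omega, hk₀ (n - 2) (by omega)⟩⟩
  filter_upwards [h2] with n hn
  obtain ⟨k, rfl, A, h⟩ := hn
  exact ⟨A, h⟩

end Pool.Agent.N596.LA
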