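import Pool.Agent.N596.LA.Rand

/-! Random lattices: clusters are small (for MP_ef2672_gt). -/

open MeasureTheory Metric Filter Set Matrix
open scoped Topology ENNReal

namespace Pool.Agent.N596.LA

open Pool.Agent.H160R3.Herm Pool.Agent.TH220.HG
open Pool.Agent.H390R2.LP (toE toE_sub rd rd_dist intBall mem_intBall)

theorem pt_modMat (k p : ℕ) (a : Fin k → ℕ) (w : Fin (k + 1) → ℤ) :
    pt (modMat k p a) w = toE (modVec k p a w) := by
  ext i
  exact mulVec_modMat k p a w i

theorem pt_sub {n : ℕ} (A : Matrix (Fin n) (Fin n) ℝ) (v w : Fin n → ℤ) :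
    pt A (v - w) = pt A v - pt A w := by
  have h : (fun j => ((v - w) j : ℝ)) = (fun j => (v j : ℝ)) - (fun j => (w j : ℝ)) := by
    ext j; simp
  unfold pt
  rw [h, Matrix.mulVec_sub]
  rfl

theorem cluster_det (k p r j : ℕ) [hp : Fact p.Prime] (a : Fin k → ZMod p) {T β ρ τ : ℝ}
    (hT : 0 < T) (hβ : 0 < β) (hj : 1 ≤ j) (hτ : 0 < τ)
    (hρ : ρ = √(2 * (β / 2) ^ 2 * (1 + 1 / j)))
    (hmin : ∀ x : Fin (k + 1) → ℤ, x ≠ 0 → ‖toE x‖ < T → a ∉ solSet k p x)
    (hgood : ∀ z ∈ intBall (k + 1) ((ρ + τ) * √((k + 1 : ℕ) : ℝ) / (2 * τ)),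
      ∀ x : Fin r → Fin (k + 1) → ℤ,
      (∀ i, ‖toE (x i) - (2 * τ * T / √((k + 1 : ℕ) : ℝ)) • toE z‖ < (ρ + τ) * T) →
      LinearIndependent ℝ (fun i => (fun j => (x i j : ℝ) : Fin (k + 1) → ℝ)) →
      ∃ i, a ∉ solSet k p (x i))
    (F : Finset (Fin (k + 1) → ℤ))
    (hF : ∀ v ∈ F, ∀ w ∈ F, v ≠ w →
      nsq (modMat k p fun j => (a j).val) (v - w) < (β * T) ^ 2) :
    (F.card : ℝ) ≤ (j + 1) * (2 * (2 * ρ) + 1) ^ r := by
  classical
  have hj0 : (0 : ℝ) < j := by exact_mod_cast hj
  set A := modMat k p fun j => (a j).val with hA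
  have hp0 : (0 : ℝ) < p := by exact_mod_cast hp.out.pos
  have hdet : A.det ≠ 0 := by rw [hA, det_modMat]; exact hp0.ne'
  have hρ0 : 0 < ρ := by rw [hρ]; exact Real.sqrt_pos.2 (by positivity)
  set Q := F.image (pt A) with hQ
  have hQc : Q.card = F.card := Finset.card_image_of_injective _ (pt_inj hdet)
  have hQd : ∀ x ∈ Q, ∀ y ∈ Q, x ≠ y → dist x y < 2 * (β / 2 * T) := by
    intro x hx y hy hxy
    obtain ⟨v, hv, rfl⟩ := Finset.mem_image.1 hx
    obtain ⟨w, hw, rfl⟩ := Finset.mem_image.1 hy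
    have h1 := hF v hv w hw (fun h => hxy (by rw [h]))
    rw [← dist_pt] at h1
    have h2 := lt_of_pow_lt_pow_left₀ 2 (by positivity) h1
    linarith
  obtain ⟨c, hc⟩ := Pool.Agent.N621.SP.near_part (show 0 < β / 2 * T by positivity) hQd hj
  have hrad : √(2 * (β / 2 * T) ^ 2 * (1 + 1 / j)) = ρ * T := by
    rw [hρ, ← Real.sqrt_sq hT.le, ← Real.sqrt_mul (by positivity), Real.sqrt_sq hT.le]
    congr 1
    ring
  rw [hrad] at hc
  set P := Q.filter (fun x => dist x c < ρ * T) with hP
  -- the lattice points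
  have hsol : ∀ x ∈ Q, ∀ y ∈ Q, ∃ u : Fin (k + 1) → ℤ, x - y = toE u ∧ a ∈ solSet k p u := by
    intro x hx y hy
    obtain ⟨v, hv, rfl⟩ := Finset.mem_image.1 hx
    obtain ⟨w, hw, rfl⟩ := Finset.mem_image.1 hy
    refine ⟨modVec k p (fun j => (a j).val) (v - w), ?_, modVec_mem k p a _⟩
    rw [← pt_sub, hA, pt_modMat]
  have hsep : ∀ x ∈ Q, ∀ y ∈ Q, x ≠ y → T ≤ dist x y := by
    intro x hx y hy hxy
    obtain ⟨u, hu, hau⟩ := hsol x hx y hy
    by_contra hcon
    push Not at hcon
    rw [dist_eq_norm, hu] at hcon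
    refine hmin u ?_ hcon hau
    rintro rfl
    apply hxy
    rw [← sub_eq_zero, hu]
    ext i
    simp [toE]
  have hPc : (P.card : ℝ) ≤ (2 * (2 * ρ) + 1) ^ r := by
    rcases P.eq_empty_or_nonempty with h0 | ⟨x₀, hx₀⟩
    · rw [h0, Finset.card_empty, Nat.cast_zero]; positivity
    obtain ⟨hx₀Q, hx₀c⟩ := Finset.mem_filter.1 hx₀
    have hinj : Function.Injective (fun x : EuclideanSpace ℝ (Fin (k + 1)) => x - x₀) :=
      sub_left_injective
    have h := pack_dim (P.image (fun x => x - x₀)) (r := r) (T := T) (ρ := 2 * ρ) hT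
      (by positivity) (by
        intro x' hx' y' hy' hxy
        obtain ⟨x, hx, rfl⟩ := Finset.mem_image.1 hx'
        obtain ⟨y, hy, rfl⟩ := Finset.mem_image.1 hy'
        rw [dist_sub_right]
        exact hsep x (Finset.mem_filter.1 hx).1 y (Finset.mem_filter.1 hy).1
          (fun h => hxy (by rw [h]))) (by
        intro x' hx'
        obtain ⟨x, hx, rfl⟩ := Finset.mem_image.1 hx'
        have h1 := (Finset.mem_filter.1 hx).2
        have h2 := dist_triangle x c x₀
        rw [dist_comm c x₀] at h2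
        rw [← dist_eq_norm]
        linarith) (by
        intro v hv hli
        have hex : ∀ i, ∃ u : Fin (k + 1) → ℤ, v i = toE u ∧ a ∈ solSet k p u ∧
            ‖v i - (c - x₀)‖ < ρ * T := by
          intro i
          obtain ⟨x, hx, hxv⟩ := Finset.mem_image.1 (hv i)
          obtain ⟨hxQ, hxc⟩ := Finset.mem_filter.1 hx
          obtain ⟨u, hu, hau⟩ := hsol x hxQ x₀ hx₀Q
          refine ⟨u, by rw [← hxv]; exact hu, hau, ?_⟩
          rw [← hxv]
          simp only [sub_sub_sub_cancel_right]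
          rw [← dist_eq_norm]
          exact hxc
        choose u hu hau hvc using hex
        set s : ℝ := √((k + 1 : ℕ) : ℝ) with hs
        have hs0 : 0 < s := Real.sqrt_pos.2 (by positivity)
        set g : ℝ := 2 * τ * T / s with hg
        have hg0 : 0 < g := by positivity
        set z := rd g (c - x₀) with hz
        have hzd : ‖(c - x₀) - g • toE z‖ ≤ τ * T := by
          refine (rd_dist g hg0 (c - x₀)).trans (le_of_eq ?_)
          rw [hg, ← hs]
          field_simp
        have hcn : ‖c - x₀‖ < ρ * T := by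
          rw [← dist_eq_norm, dist_comm]; exact hx₀c
        have hzm : z ∈ intBall (k + 1) ((ρ + τ) * s / (2 * τ)) := by
          rw [mem_intBall]
          have h1 : ‖g • toE z‖ ≤ (ρ + τ) * T := by
            calc ‖g • toE z‖ = ‖(c - x₀) - ((c - x₀) - g • toE z)‖ := by congr 1; abel
              _ ≤ ‖c - x₀‖ + ‖(c - x₀) - g • toE z‖ := norm_sub_le _ _
              _ ≤ _ := by linarith
          rw [norm_smul, Real.norm_of_nonneg hg0.le] at h1
          have h2 : ‖toE z‖ ≤ (ρ + τ) * T / g := by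
            rw [le_div_iff₀ hg0]; linarith
          refine h2.trans (le_of_eq ?_)
          rw [hg]
          field_simp
        obtain ⟨i, hi⟩ := hgood z hzm u (fun i => by
          rw [← hu i]
          calc ‖v i - g • toE z‖ ≤ ‖v i - (c - x₀)‖ + ‖(c - x₀) - g • toE z‖ :=
                norm_sub_le_norm_sub_add_norm_sub _ _ _
            _ < _ := by linarith [hvc i]) (by
          have h1 := hli.map' (WithLp.linearEquiv 2 ℝ (Fin (k + 1) → ℝ)).toLinearMap
            (LinearEquiv.ker _)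
          have h2 : (fun i => (fun j => (u i j : ℝ) : Fin (k + 1) → ℝ)) =
              (WithLp.linearEquiv 2 ℝ (Fin (k + 1) → ℝ)).toLinearMap ∘ v := by
            ext i j
            simp only [Function.comp_apply, hu i]
            rfl
          rw [h2]
          exact h1)
        exact hi (hau i))
    rwa [Finset.card_image_of_injective _ hinj] at h
  calc (F.card : ℝ) = (Q.card : ℝ) := by rw [hQc]
    _ ≤ (((j + 1) * P.card : ℕ) : ℝ) := by exact_mod_cast hc
    _ = (j + 1) * (P.card : ℝ) := by push_cast; ring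
    _ ≤ _ := mul_le_mul_of_nonneg_left hPc (by positivity)

end Pool.Agent.N596.LA
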