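import Pool.Agent.N596.LA.Asym

/-! Hermite invariants of lattices with small clusters: main theorems (for MP_ef2672_gt). -/

open MeasureTheory Metric Filter Set Matrix
open scoped Topology ENNReal

namespace Pool.Agent.N596.LA

open Pool.Agent.H160R3.Herm Pool.Agent.TH220.HG

/-- for `β ≤ 1` the clusters are single points -/
theorem clusterHermite_one {n K : ℕ} (hn : 0 < n) (hK : 1 ≤ K) {β : ℝ} (hβ : 0 < β) (hβ1 : β ≤ 1) :
    clusterHermite n β K = hermite n := by
  apply le_antisymm (clusterHermite_le_hermite hn β K)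
  have : Nonempty {A : Matrix (Fin n) (Fin n) ℝ // A.det ≠ 0} := ⟨⟨1, by simp⟩⟩
  apply ciSup_le
  rintro ⟨A, hA⟩
  apply le_clusterHermite hn hA
  intro F hF
  refine le_trans ?_ hK
  rw [Finset.card_le_one]
  intro v hv w hw
  by_contra hne
  have h1 := hF v hv w hw hne
  have h2 : minSq A ≤ nsq A (v - w) := minSq_le A _ (sub_ne_zero.2 hne)
  have h3 := minSq_pos hn hA
  have h4 : β ^ 2 ≤ 1 := pow_le_one₀ hβ.le hβ1
  nlinarith

/-- bounded clusters -/
theorem bounded_clusters {β c : ℝ} (hβ : √2 ≤ β) (hc : c < 1 / (Real.pi * Real.exp 1 * β ^ 2)) :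
    ∃ K : ℕ, ∀ᶠ n : ℕ in atTop, c ≤ clusterHermite n β K / n := by
  obtain ⟨K, C, h⟩ := exists_lattice hβ hc
  refine ⟨K, ?_⟩
  filter_upwards [h, eventually_gt_atTop 0] with n hn hn0
  obtain ⟨A, hA, hK, hcA, -⟩ := hn
  exact hcA.trans (div_le_div_of_nonneg_right (le_clusterHermite hn0 hA hK) (Nat.cast_nonneg n))

/-- upper bound for the suprema -/
theorem sup_upper {β : ℝ} (hβ : 0 < β) {a : ℝ} (ha : 1 / (Real.pi * Real.exp 1 * β ^ 2) < a) :
    ∃ κ : ℝ, 0 < κ ∧ ∀ᶠ n : ℕ in atTop, ∀ K : ℕ, (K : ℝ) ≤ (2 : ℝ) ^ (κ * n) →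
      clusterHermite n β K / n ≤ a := by
  obtain ⟨κ, hκ, h⟩ := upper_sub hβ ha
  refine ⟨κ, hκ, ?_⟩
  filter_upwards [h, eventually_gt_atTop 0] with n hn hn0 K hK
  have hn' : (0 : ℝ) < n := by exact_mod_cast hn0
  have ha0 : 0 ≤ a := le_trans (by positivity) ha.le
  rw [div_le_iff₀ hn']
  apply Real.sSup_le _ (by positivity)
  rintro _ ⟨A, hA, hc, rfl⟩
  have := hn A hA K hK hc
  rwa [div_le_iff₀ hn'] at this

/-- The limit for clusters of subexponential size. -/
theorem cluster_limit {β : ℝ} (hβ : √2 ≤ β) {K : ℕ → ℕ} (hK : Tendsto K atTop atTop)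
    (hK' : Tendsto (fun n : ℕ => Real.logb 2 (K n) / n) atTop (𝓝 0)) :
    Tendsto (fun n : ℕ => clusterHermite n β (K n) / n) atTop
      (𝓝 (1 / (Real.pi * Real.exp 1 * β ^ 2))) := by
  have hs2 : 0 < √(2 : ℝ) := Real.sqrt_pos.2 (by norm_num)
  have hβ0 : 0 < β := lt_of_lt_of_le hs2 hβ
  rw [tendsto_order]
  constructor
  · intro c hc
    obtain ⟨c', hc1, hc2⟩ := exists_between hc
    obtain ⟨K₀, C, h⟩ := exists_lattice hβ hc2
    filter_upwards [h, eventually_gt_atTop 0, hK.eventually (eventually_ge_atTop K₀)]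
      with n hn hn0 hKn
    obtain ⟨A, hA, hKA, hcA, -⟩ := hn
    exact hc1.trans_le (hcA.trans (div_le_div_of_nonneg_right
      (le_clusterHermite hn0 hA (hKA.mono hKn)) (Nat.cast_nonneg n)))
  · intro a ha
    obtain ⟨a', ha1, ha2⟩ := exists_between ha
    obtain ⟨κ, hκ, h⟩ := sup_upper hβ0 ha1
    filter_upwards [h, eventually_gt_atTop 0, hK'.eventually (gt_mem_nhds hκ),
      hK.eventually (eventually_ge_atTop 1)] with n hn hn0 hKn hK1
    have hn' : (0 : ℝ) < n := by exact_mod_cast hn0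
    have hK0 : (0 : ℝ) < K n := by exact_mod_cast hK1
    refine lt_of_le_of_lt (hn (K n) ?_) ha2
    rw [div_lt_iff₀ hn'] at hKn
    rw [← Real.logb_le_iff_le_rpow (by norm_num) hK0]
    exact hKn.le

/-- from clusters of points to coordinates -/
theorem clustersLE_of_lat {n : ℕ} {A : Matrix (Fin n) (Fin n) ℝ} (hA : A.det ≠ 0) {β : ℝ}
    (hβ : 0 < β) {K : ℕ}
    (hK : Pool.Agent.N621.SP.ClusterLE (Pool.Agent.H390R2.LP.lat A) (β * √(minSq A)) K) :
    ClustersLE A β K := by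
  classical
  intro F hF
  rw [← Finset.card_image_of_injective F (pt_inj hA)]
  apply hK
  · intro x hx
    rw [Finset.coe_image] at hx
    obtain ⟨w, -, rfl⟩ := hx
    exact ⟨w, rfl⟩
  · intro x hx y hy hxy
    obtain ⟨v, hv, rfl⟩ := Finset.mem_image.1 hx
    obtain ⟨w, hw, rfl⟩ := Finset.mem_image.1 hy
    have h1 := hF v hv w hw (fun h => hxy (by rw [h]))
    rw [← dist_pt] at h1
    apply lt_of_pow_lt_pow_left₀ 2 (by positivity)
    rwa [mul_pow, Real.sq_sqrt (minSq_nonneg A)]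

/-- lattices with few lengths have small clusters -/
theorem clustersLE_of_lengths {n : ℕ} {A : Matrix (Fin n) (Fin n) ℝ} (hA : A.det ≠ 0) {β : ℝ}
    (hβ : 0 < β) {s : ℕ} (hs : (lengths A β).encard ≤ s) :
    ClustersLE A β ((n + s).choose s) := by
  apply clustersLE_of_lat hA hβ
  apply Pool.Agent.N621.SP.cluster_of_dist
  refine le_trans ?_ hs
  have hsub : Pool.Agent.N621.SP.shortDist (Pool.Agent.H390R2.LP.lat A) (β * √(minSq A)) ⊆
      Real.sqrt '' lengths A β := by
    rintro d ⟨hd0, hd, x, ⟨v, rfl⟩, y, ⟨w, rfl⟩, hxy⟩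
    have h1 : dist (pt A v) (pt A w) = d := hxy
    have h2 : nsq A (v - w) = d ^ 2 := by rw [← dist_pt, h1]
    refine ⟨d ^ 2, ⟨?_, v - w, ?_, h2⟩, Real.sqrt_sq hd0.le⟩
    · have h3 := pow_lt_pow_left₀ hd hd0.le two_ne_zero
      rwa [mul_pow, Real.sq_sqrt (minSq_nonneg A)] at h3
    · intro h4
      rw [sub_eq_zero] at h4
      rw [h4, dist_self] at h1
      linarith
  exact (Set.encard_le_encard hsub).trans (Set.encard_image_le _ _)

/-- Lattices with large Hermite invariant have large clusters and many lengths. -/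
theorem lattice_threshold {β θ : ℝ} (hβ : 0 < β)
    (hθ : 1 / (Real.pi * Real.exp 1 * β ^ 2) < θ) :
    ∃ η : ℝ, 0 < η ∧ ∀ᶠ n : ℕ in atTop, ∀ A : Matrix (Fin n) (Fin n) ℝ, A.det ≠ 0 →
      θ ≤ gam A / n →
      (∃ F : Finset (Fin n → ℤ),
        (∀ v ∈ F, ∀ w ∈ F, v ≠ w → nsq A (v - w) < β ^ 2 * minSq A) ∧
        (2 : ℝ) ^ (η * n) ≤ F.card) ∧
      (∀ s : ℕ, (lengths A β).encard ≤ s → η * n < s) := by
  obtain ⟨a, ha1, ha2⟩ := exists_between hθ
  obtain ⟨κ, hκ, h⟩ := upper_sub hβ ha1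
  obtain ⟨σ, hσ, h2⟩ := Pool.Agent.N621.SP.choose_small hκ
  refine ⟨min κ σ, lt_min hκ hσ, ?_⟩
  filter_upwards [h, eventually_ge_atTop 1] with n hn hn1 A hA hg
  have hn0 : (0 : ℝ) ≤ n := Nat.cast_nonneg n
  have hno : ∀ K : ℕ, (K : ℝ) ≤ (2 : ℝ) ^ (κ * n) → ¬ ClustersLE A β K := by
    intro K hK hc
    have := hn A hA K hK hc
    linarith
  constructor
  · by_contra hcon
    push Not at hcon
    apply hno ⌊(2 : ℝ) ^ (κ * n)⌋₊ (Nat.floor_le (by positivity))
    intro F hF
    apply Nat.le_floor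
    refine (hcon F hF).le.trans ?_
    apply Real.rpow_le_rpow_of_exponent_le (by norm_num)
    exact mul_le_mul_of_nonneg_right (min_le_left _ _) hn0
  · intro s hs
    by_contra hcon
    push Not at hcon
    have h3 : (s : ℝ) ≤ σ * n :=
      hcon.trans (mul_le_mul_of_nonneg_right (min_le_right _ _) hn0)
    exact hno _ (h2 n hn1 s h3).le (clustersLE_of_lengths hA hβ hs)

/-- `γ_n / n` is asymptotically at least `1 / (2 π e)` -/
theorem hermite_lower {c : ℝ} (hc : c < 1 / (2 * Real.pi * Real.exp 1)) :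
    ∀ᶠ n : ℕ in atTop, c ≤ hermite n / n := by
  have h0 : c < 1 / (Real.pi * Real.exp 1 * √2 ^ 2) := by
    rw [Real.sq_sqrt (by norm_num)]
    refine hc.trans_le (le_of_eq ?_)
    congr 1
    ring
  obtain ⟨K, h⟩ := bounded_clusters le_rfl h0
  filter_upwards [h, eventually_gt_atTop 0] with n hn hn0
  exact hn.trans (div_le_div_of_nonneg_right (clusterHermite_le_hermite hn0 _ _)
    (Nat.cast_nonneg n))

/-- Near-optimal lattices. -/
theorem near_optimal {β : ℝ} (hβ : √2 < β) :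
    ∃ η : ℝ, 0 < η ∧ ∀ᶠ n : ℕ in atTop, ∀ A : Matrix (Fin n) (Fin n) ℝ, A.det ≠ 0 →
      (1 - η) * hermite n ≤ gam A →
      (∃ F : Finset (Fin n → ℤ),
        (∀ v ∈ F, ∀ w ∈ F, v ≠ w → nsq A (v - w) < β ^ 2 * minSq A) ∧
        (2 : ℝ) ^ (η * n) ≤ F.card) ∧
      (∀ s : ℕ, (lengths A β).encard ≤ s → η * n < s) := by
  have hs2 : 0 < √(2 : ℝ) := Real.sqrt_pos.2 (by norm_num)
  have hβ0 : 0 < β := lt_trans hs2 hβ
  have h1 : 1 / (Real.pi * Real.exp 1 * β ^ 2) < 1 / (2 * Real.pi * Real.exp 1) := by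
    apply one_div_lt_one_div_of_lt (by positivity)
    have h2 : 2 < β ^ 2 := by
      have := pow_lt_pow_left₀ hβ hs2.le two_ne_zero
      rwa [Real.sq_sqrt (by norm_num)] at this
    have : 0 < Real.pi * Real.exp 1 := by positivity
    nlinarith
  obtain ⟨θ, hθ1, hθ2⟩ := exists_between h1
  obtain ⟨c, hc1, hc2⟩ := exists_between hθ2
  have hθ0 : 0 < θ := lt_trans (by positivity) hθ1
  have hc0 : 0 < c := hθ0.trans hc1
  obtain ⟨η, hη, h⟩ := lattice_threshold hβ0 hθ1
  have h3 : 0 < 1 - θ / c := by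
    rw [sub_pos, div_lt_one hc0]
    exact hc1
  refine ⟨min η (1 - θ / c), lt_min hη h3, ?_⟩
  filter_upwards [h, hermite_lower hc2, eventually_gt_atTop 0] with n hn hnc hn0 A hA hg
  have hn' : (0 : ℝ) < n := by exact_mod_cast hn0
  have h4 : θ ≤ gam A / n := by
    have h5 : θ / c ≤ 1 - min η (1 - θ / c) := by
      have := min_le_right η (1 - θ / c)
      linarith
    rw [le_div_iff₀ hn'] at hnc ⊢
    calc θ * n = θ / c * (c * n) := by field_simp
      _ ≤ θ / c * hermite n := mul_le_mul_of_nonneg_left hnc (by positivity)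
      _ ≤ (1 - min η (1 - θ / c)) * hermite n :=
          mul_le_mul_of_nonneg_right h5 (hermite_nonneg' n)
      _ ≤ gam A := hg
  obtain ⟨⟨F, hF1, hF2⟩, hs⟩ := hn A hA h4
  refine ⟨⟨F, hF1, le_trans ?_ hF2⟩, fun s hs' => lt_of_le_of_lt ?_ (hs s hs')⟩
  · apply Real.rpow_le_rpow_of_exponent_le (by norm_num)
    exact mul_le_mul_of_nonneg_right (min_le_left _ _) hn'.le
  · exact mul_le_mul_of_nonneg_right (min_le_left _ _) hn'.le

/-- The believed value of the limit, and lattices with bounded clusters. -/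
theorem belief : Tendsto (fun n : ℕ => hermite n / n) atTop (𝓝 (1 / (2 * Real.pi * Real.exp 1))) ↔
    ∀ ε : ℝ, 0 < ε → ∃ K : ℕ, ∀ᶠ n : ℕ in atTop,
      (1 - ε) * hermite n ≤ clusterHermite n √2 K := by
  set L : ℝ := 1 / (2 * Real.pi * Real.exp 1) with hL
  have hL0 : 0 < L := by positivity
  have hs2 : 0 < √(2 : ℝ) := Real.sqrt_pos.2 (by norm_num)
  have hL' : 1 / (Real.pi * Real.exp 1 * √2 ^ 2) = L := by
    rw [Real.sq_sqrt (by norm_num), hL]
    congr 1
    ring
  constructor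
  · intro h ε hε
    by_cases hε1 : 1 ≤ ε
    · refine ⟨0, Eventually.of_forall fun n => ?_⟩
      have h1 : (1 - ε) * hermite n ≤ 0 :=
        mul_nonpos_of_nonpos_of_nonneg (by linarith) (hermite_nonneg' n)
      refine h1.trans (Real.sSup_nonneg ?_)
      rintro _ ⟨A, -, -, rfl⟩
      exact gam_nonneg A
    push Not at hε1
    have h1 : (1 - ε / 2) * L < L := by nlinarith
    have h1' : (1 - ε / 2) * L < 1 / (Real.pi * Real.exp 1 * √2 ^ 2) := by rw [hL']; exact h1
    obtain ⟨K, hK⟩ := bounded_clusters le_rfl h1'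
    refine ⟨K, ?_⟩
    have h2 : L < (1 - ε / 2) / (1 - ε) * L := by
      have h3 : 1 < (1 - ε / 2) / (1 - ε) := by
        rw [one_lt_div (by linarith)]
        linarith
      nlinarith
    filter_upwards [hK, h.eventually (gt_mem_nhds h2), eventually_gt_atTop 0] with n hn1 hn2 hn0
    have hn' : (0 : ℝ) < n := by exact_mod_cast hn0
    rw [le_div_iff₀ hn'] at hn1
    rw [div_lt_iff₀ hn'] at hn2
    calc (1 - ε) * hermite n ≤ (1 - ε) * ((1 - ε / 2) / (1 - ε) * L * n) :=
          mul_le_mul_of_nonneg_left hn2.le (by linarith)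
      _ = (1 - ε / 2) * L * n := by
          have : (1 - ε) ≠ 0 := by linarith
          field_simp
      _ ≤ _ := hn1
  · intro h
    rw [tendsto_order]
    constructor
    · intro c hc
      obtain ⟨c', hc1, hc2⟩ := exists_between hc
      filter_upwards [hermite_lower hc2] with n hn
      exact hc1.trans_le hn
    · intro a ha
      obtain ⟨a', ha1, ha2⟩ := exists_between ha
      have ha0 : 0 < a := hL0.trans ha
      have ha0' : 0 < a' := hL0.trans ha1
      have hε : 0 < 1 - a' / a := by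
        rw [sub_pos, div_lt_one ha0]
        exact ha2
      obtain ⟨a'', ha3, ha4⟩ := exists_between ha1
      obtain ⟨K, hK⟩ := h (1 - a' / a) hε
      obtain ⟨κ, hκ, hκ'⟩ := sup_upper (a := a'') hs2 (by rw [hL']; exact ha3)
      have hev : ∀ᶠ n : ℕ in atTop, (K : ℝ) ≤ (2 : ℝ) ^ (κ * n) := by
        have h1 : Tendsto (fun n : ℕ => (2 : ℝ) ^ (κ * n)) atTop atTop := by
          have h2 : Tendsto (fun n : ℕ => ((2 : ℝ) ^ κ) ^ n) atTop atTop :=
            tendsto_pow_atTop_atTop_of_one_lt (Real.one_lt_rpow (by norm_num) hκ)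
          refine h2.congr fun n => ?_
          rw [← Real.rpow_natCast, ← Real.rpow_mul (by norm_num)]
        exact h1.eventually (eventually_ge_atTop _)
      filter_upwards [hK, hκ', hev, eventually_gt_atTop 0] with n hn1 hn2 hn3 hn0
      have hn' : (0 : ℝ) < n := by exact_mod_cast hn0
      have h5 := hn2 K hn3
      rw [div_le_iff₀ hn'] at h5
      rw [div_lt_iff₀ hn']
      have h6 : a' / a * hermite n ≤ a'' * n := by
        have e : 1 - (1 - a' / a) = a' / a := by ring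
        rw [e] at hn1
        exact hn1.trans h5
      have h7 : a' / a * hermite n < a' / a * (a * n) := by
        calc a' / a * hermite n ≤ a'' * n := h6
          _ < a' * n := mul_lt_mul_of_pos_right ha4 hn'
          _ = a' / a * (a * n) := by field_simp
      exact lt_of_mul_lt_mul_left h7 (by positivity)

end Pool.Agent.N596.LA
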