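import Pool.Agent.N596.LA.Det

/-! Random lattices: choice of the parameters (for MP_ef2672_gt). -/

open MeasureTheory Metric Filter Set Matrix
open scoped Topology ENNReal

namespace Pool.Agent.N596.LA

open Pool.Agent.H160R3.Herm Pool.Agent.TH220.HG
open Pool.Agent.H390R2.LP (toE toE_sub rd rd_dist intBall mem_intBall)

theorem norm_sq_toE {n : ℕ} (x : Fin n → ℤ) : ‖toE x‖ ^ 2 = ((∑ i, x i ^ 2 : ℤ) : ℝ) := by
  rw [EuclideanSpace.norm_sq_eq]
  push_cast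
  refine Finset.sum_congr rfl fun i _ => ?_
  rw [Real.norm_eq_abs, sq_abs]
  rfl

theorem eventually_poly_lt {M : ℕ} (hM : 2 ≤ M) (A : ℝ) (r : ℕ) :
    ∀ᶠ n : ℕ in atTop, A * (n : ℝ) ^ r < (M : ℝ) ^ n := by
  have hM' : (1 : ℝ) < M := by exact_mod_cast (by omega : 1 < M)
  have h := (isLittleO_pow_const_const_pow_of_one_lt (R := ℝ) r hM').const_mul_left A
  have h1 := h.def (show (0 : ℝ) < 1 / 2 by norm_num)
  filter_upwards [h1] with n hn
  have hp : (0 : ℝ) < (M : ℝ) ^ n := by positivity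
  rw [Real.norm_of_nonneg hp.le] at hn
  have h2 := (le_abs_self (A * (n : ℝ) ^ r)).trans hn
  linarith

theorem exists_rand {β s : ℝ} (hβ : √2 ≤ β) (hs : β / √2 < s) :
    ∃ K M : ℕ, ∀ᶠ k : ℕ in atTop, ∃ (B : Matrix (Fin (k + 1)) (Fin (k + 1)) ℝ) (T : ℝ),
      0 < T ∧ T ^ 2 ≤ M * ((k + 1 : ℕ) : ℝ) ∧ (∀ w, ∃ u : ℤ, nsq B w = u) ∧
      0 < B.det ∧
      B.det = (√(2 * Real.pi * Real.exp 1 / ((k + 1 : ℕ) : ℝ)) * s * T) ^ (k + 1) ∧
      (∀ w : Fin (k + 1) → ℤ, w ≠ 0 → T ^ 2 ≤ nsq B w) ∧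
      (∀ F : Finset (Fin (k + 1) → ℤ),
        (∀ v ∈ F, ∀ w ∈ F, v ≠ w → nsq B (v - w) < (β * T) ^ 2) → F.card ≤ K) := by
  have hs2 : 0 < √(2 : ℝ) := Real.sqrt_pos.2 (by norm_num)
  have hβ0 : 0 < β := lt_of_lt_of_le hs2 hβ
  have hβ1 : 1 ≤ β / √2 := by rw [le_div_iff₀ hs2]; linarith
  have hs0 : 0 < s := by linarith
  -- the number `j`
  obtain ⟨j, hj, hjs⟩ : ∃ j : ℕ, 1 ≤ j ∧ √(2 * (β / 2) ^ 2 * (1 + 1 / (j : ℝ))) < s := by
    have h1 : Tendsto (fun j : ℕ => √(2 * (β / 2) ^ 2 * (1 + 1 / (j : ℝ)))) atTop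
        (𝓝 √(2 * (β / 2) ^ 2 * (1 + 0))) :=
      (Real.continuous_sqrt.tendsto _).comp
        ((tendsto_const_nhds.add tendsto_one_div_atTop_nhds_zero_nat).const_mul _)
    have h2 : √(2 * (β / 2) ^ 2 * (1 + 0)) = β / √2 := by
      rw [add_zero, mul_one, show 2 * (β / 2) ^ 2 = β ^ 2 / 2 by ring,
        Real.sqrt_div (sq_nonneg β), Real.sqrt_sq hβ0.le]
    rw [h2] at h1
    obtain ⟨j, h3, h4⟩ := ((h1.eventually (gt_mem_nhds hs)).and (eventually_ge_atTop 1)).exists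
    exact ⟨j, h4, h3⟩
  have hj0 : (0 : ℝ) < j := by exact_mod_cast hj
  set ρ : ℝ := √(2 * (β / 2) ^ 2 * (1 + 1 / (j : ℝ))) with hρ
  have hρ1 : 1 ≤ ρ := by
    rw [hρ, Real.one_le_sqrt]
    have h1 : 2 ≤ β ^ 2 := by
      have := pow_le_pow_left₀ hs2.le hβ 2
      rwa [Real.sq_sqrt (by norm_num)] at this
    have h2 : (0 : ℝ) ≤ 1 / j := by positivity
    nlinarith
  set τ : ℝ := (s - ρ) / 3 with hτ
  have hτ0 : 0 < τ := by rw [hτ]; linarith
  set q : ℝ := (ρ + 2 * τ) / s with hq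
  have hq0 : 0 < q := by positivity
  have hq1 : q < 1 := by
    rw [hq, div_lt_one hs0]
    have : s = ρ + 3 * τ := by rw [hτ]; ring
    linarith
  set c₀ : ℝ := √(2 * Real.pi * Real.exp 1) with hc₀
  have hc₀pos : 0 < c₀ := Real.sqrt_pos.2 (by positivity)
  have hc₀2 : 2 ≤ c₀ := by
    rw [hc₀, Real.le_sqrt' (by norm_num)]
    have := Real.pi_gt_three
    have := Real.add_one_le_exp 1
    nlinarith
  obtain ⟨M₀, hM₀⟩ := exists_nat_ge (max 2 (c₀ * s / τ))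
  have hM₂ : (2 : ℝ) ≤ M₀ := (le_max_left _ _).trans hM₀
  have hM₂' : 2 ≤ M₀ := by exact_mod_cast hM₂
  have hM₁ : c₀ * s / τ ≤ M₀ := (le_max_right _ _).trans hM₀
  have hM₃ : c₀ ≤ τ / s * M₀ := by
    rw [div_le_iff₀ hτ0] at hM₁
    rw [div_mul_eq_mul_div, le_div_iff₀ hs0]
    linarith
  set C : ℝ := c₀ * ((ρ + τ) / (2 * τ) + 2) with hC
  have hC0 : 0 < C := by positivity
  obtain ⟨r, hr⟩ : ∃ r : ℕ, C * q ^ r < 1 := by
    obtain ⟨r, hr⟩ := exists_pow_lt_of_lt_one (show 0 < 1 / C by positivity) hq1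
    refine ⟨r, ?_⟩
    rw [lt_div_iff₀ hC0] at hr
    linarith
  obtain ⟨B₀, hB₀⟩ := exists_nat_ge (4 * s ^ 2 * (M₀ : ℝ) ^ 2)
  refine ⟨⌊((j : ℝ) + 1) * (2 * (2 * ρ) + 1) ^ r⌋₊, M₀ ^ 2, ?_⟩
  have hev1 : ∀ᶠ k : ℕ in atTop, (r.factorial : ℝ) * (B₀ : ℝ) ^ r * ((k + 1 : ℕ) : ℝ) ^ r <
      (M₀ : ℝ) ^ (k + 1) :=
    (tendsto_add_atTop_nat 1).eventually (eventually_poly_lt hM₂' _ r)
  have hev2 : ∀ᶠ k : ℕ in atTop, (M₀ : ℝ) ^ 2 * ((k + 1 : ℕ) : ℝ) ^ 1 < (M₀ : ℝ) ^ (k + 1) :=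
    (tendsto_add_atTop_nat 1).eventually (eventually_poly_lt hM₂' _ 1)
  have hev3 : ∀ᶠ k : ℕ in atTop, q ^ (k + 1) + 2 * (C * q ^ r) ^ (k + 1) < 1 := by
    have h1 : Tendsto (fun n : ℕ => q ^ n + 2 * (C * q ^ r) ^ n) atTop (𝓝 (0 + 2 * 0)) :=
      (tendsto_pow_atTop_nhds_zero_of_lt_one hq0.le hq1).add
        ((tendsto_pow_atTop_nhds_zero_of_lt_one (by positivity) hr).const_mul 2)
    rw [mul_zero, add_zero] at h1
    exact (tendsto_add_atTop_nat 1).eventually (h1.eventually (gt_mem_nhds one_pos))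
  filter_upwards [hev1, hev2, hev3] with k hk1 hk2 hk3
  set n := k + 1 with hn
  have hn0 : 0 < n := Nat.succ_pos k
  have hn' : (0 : ℝ) < n := by exact_mod_cast hn0
  obtain ⟨p, hp, hp1, hp2⟩ := Nat.exists_prime_lt_and_le_two_mul (M₀ ^ n) (by positivity)
  have hfp : Fact p.Prime := ⟨hp⟩
  have hp0 : (0 : ℝ) < p := by exact_mod_cast hp.pos
  have hpM : (M₀ : ℝ) ^ n < p := by exact_mod_cast hp1
  have hpM2 : (p : ℝ) ≤ 2 * (M₀ : ℝ) ^ n := by exact_mod_cast hp2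
  set t : ℝ := (p : ℝ) ^ ((1 : ℝ) / n) with ht
  have ht0 : 0 < t := by positivity
  have htn : t ^ n = p := by
    rw [ht, ← Real.rpow_natCast, ← Real.rpow_mul hp0.le, one_div, inv_mul_cancel₀ hn'.ne',
      Real.rpow_one]
  have htM : (M₀ : ℝ) ≤ t := by
    apply le_of_pow_le_pow_left₀ hn0.ne' ht0.le
    rw [htn]
    exact hpM.le
  have htM2 : t ≤ 2 * M₀ := by
    apply le_of_pow_le_pow_left₀ hn0.ne' (by positivity)
    rw [htn, mul_pow]
    refine hpM2.trans ?_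
    apply mul_le_mul_of_nonneg_right _ (by positivity)
    exact le_self_pow₀ (by norm_num) hn0.ne'
  set κ : ℝ := √(2 * Real.pi * Real.exp 1 / (n : ℝ)) with hκ
  have hκc : κ * √n = c₀ := by
    rw [hκ, ← Real.sqrt_mul (by positivity), hc₀]
    congr 1
    field_simp
  have hsn : 0 < √(n : ℝ) := Real.sqrt_pos.2 hn'
  have hκ0 : 0 < κ := Real.sqrt_pos.2 (by positivity)
  set T : ℝ := t / (κ * s) with hT
  have hT0 : 0 < T := by positivity
  have hκT : κ * s * T = t := by rw [hT]; field_simp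
  have hκT' : κ * T = t / s := by rw [hT]; field_simp
  have hs1 : 1 ≤ s := by linarith
  have hTle : T ≤ M₀ * √n := by
    have h1 : T * c₀ ≤ 2 * M₀ * √n := by
      calc T * c₀ = (κ * s * T) * √n / s := by rw [← hκc]; field_simp
        _ = t * √n / s := by rw [hκT]
        _ ≤ t * √n := div_le_self (by positivity) hs1
        _ ≤ _ := mul_le_mul_of_nonneg_right htM2 hsn.le
    have h2 : T * 2 ≤ T * c₀ := mul_le_mul_of_nonneg_left hc₀2 hT0.le
    linarith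
  have hT2 : T ^ 2 ≤ (M₀ : ℝ) ^ 2 * n := by
    calc T ^ 2 ≤ (M₀ * √n) ^ 2 := pow_le_pow_left₀ hT0.le hTle 2
      _ = _ := by rw [mul_pow, Real.sq_sqrt hn'.le]
  -- counts of integer points
  have hcnt : ∀ (V : Finset (Fin n → ℤ)) (z : EuclideanSpace ℝ (Fin n)),
      (∀ v ∈ V, ‖toE v - z‖ < (ρ + τ) * T) → (V.card : ℝ) ≤ q ^ n * p := by
    intro V z hV
    refine (card_int_ball hn0 V z (by positivity) hV).trans ?_
    rw [← htn, ← mul_pow]
    apply pow_le_pow_left₀ (by positivity)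
    calc κ * ((ρ + τ) * T + √n) = (ρ + τ) * (κ * T) + κ * √n := by ring
      _ = (ρ + τ) * (t / s) + c₀ := by rw [hκT', hκc]
      _ ≤ (ρ + τ) * (t / s) + τ / s * t := by
          have h1 : τ / s * M₀ ≤ τ / s * t := mul_le_mul_of_nonneg_left htM (by positivity)
          linarith
      _ = q * t := by rw [hq]; ring
  -- the first bad set
  set F : Finset (Fin n → ℤ) := (intBall n T).filter (fun x => x ≠ 0 ∧ ‖toE x‖ < T) with hF
  have hFc : (F.card : ℝ) ≤ q ^ n * p := by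
    apply hcnt F 0
    intro v hv
    have h1 := (Finset.mem_filter.1 hv).2.2
    rw [sub_zero]
    refine h1.trans_le ?_
    have h2 : 1 ≤ ρ + τ := by linarith
    nlinarith
  have hFp : ∀ x ∈ F, ∃ i, (x i : ZMod p) ≠ 0 := by
    intro x hx
    obtain ⟨-, hx0, hxT⟩ := Finset.mem_filter.1 hx
    obtain ⟨i, hi⟩ := Function.ne_iff.1 hx0
    refine ⟨i, fun h => hi ?_⟩
    rw [ZMod.intCast_zmod_eq_zero_iff_dvd] at h
    apply Int.eq_zero_of_abs_lt_dvd h
    have h1 : (x i : ℝ) ^ 2 ≤ ‖toE x‖ ^ 2 := by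
      rw [norm_sq_toE]
      push_cast
      exact Finset.single_le_sum (f := fun i => (x i : ℝ) ^ 2) (fun _ _ => sq_nonneg _)
        (Finset.mem_univ i)
    have h2 : ‖toE x‖ ^ 2 < T ^ 2 := pow_lt_pow_left₀ hxT (norm_nonneg _) two_ne_zero
    have h3 : (x i : ℝ) ^ 2 < p := by
      rw [pow_one] at hk2
      linarith
    have h4 : x i ^ 2 < (p : ℤ) := by exact_mod_cast h3
    have h5 : |x i| ≤ x i ^ 2 := by
      have h6 := Int.one_le_abs hi
      rw [← sq_abs]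
      nlinarith
    linarith
  -- the net and the second bad set
  set g : ℝ := 2 * τ * T / √n with hg
  have hg0 : 0 < g := by positivity
  set Z := intBall n ((ρ + τ) * √n / (2 * τ)) with hZ
  have hZc : (Z.card : ℝ) ≤ C ^ n := by
    refine (card_int_ball hn0 Z 0 (R := (ρ + τ) * √n / (2 * τ) + √n) (by positivity) (by
      intro v hv
      rw [hZ, mem_intBall] at hv
      rw [sub_zero]
      linarith)).trans (le_of_eq ?_)
    congr 1
    calc κ * ((ρ + τ) * √n / (2 * τ) + √n + √n) = (κ * √n) * ((ρ + τ) / (2 * τ) + 2) := by ring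
      _ = C := by rw [hκc]
  set P : (Fin n → ℤ) → Finset (Fin n → ℤ) := fun z =>
    (intBall n (2 * (ρ + τ) * T)).filter (fun x => ‖toE x - g • toE z‖ < (ρ + τ) * T) with hP
  have hPc : ∀ z ∈ Z, ((P z).card : ℝ) ≤ q ^ n * p := by
    intro z _
    exact hcnt (P z) (g • toE z) fun v hv => (Finset.mem_filter.1 hv).2
  have hPB : ∀ z ∈ Z, ∀ x ∈ P z, ∑ i, x i ^ 2 ≤ ((B₀ * n : ℕ) : ℤ) := by
    intro z _ x hx
    have h1 := mem_intBall.1 (Finset.mem_filter.1 hx).1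
    have h2 : ‖toE x‖ ^ 2 ≤ (B₀ * n : ℝ) := by
      calc ‖toE x‖ ^ 2 ≤ (2 * (ρ + τ) * T) ^ 2 := pow_le_pow_left₀ (norm_nonneg _) h1 2
        _ = 4 * (ρ + τ) ^ 2 * T ^ 2 := by ring
        _ ≤ 4 * s ^ 2 * ((M₀ : ℝ) ^ 2 * n) := by
            apply mul_le_mul _ hT2 (by positivity) (by positivity)
            apply mul_le_mul_of_nonneg_left _ (by norm_num)
            apply pow_le_pow_left₀ (by positivity)
            have : s = ρ + 3 * τ := by rw [hτ]; ring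
            linarith
        _ = (4 * s ^ 2 * (M₀ : ℝ) ^ 2) * n := by ring
        _ ≤ _ := mul_le_mul_of_nonneg_right hB₀ hn'.le
    rw [norm_sq_toE] at h2
    exact_mod_cast h2
  have hBp : (r.factorial : ℤ) * ((B₀ * n : ℕ) : ℤ) ^ r < p := by
    have h1 : (r.factorial : ℝ) * ((B₀ : ℝ) * n) ^ r < p := by
      rw [mul_pow, ← mul_assoc]
      exact hk1.trans hpM
    exact_mod_cast h1
  have hp21 : (p : ℝ) / (p - 1) ≤ 2 := by
    have h2 : (2 : ℝ) ≤ p := by exact_mod_cast hp.two_le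
    rw [div_le_iff₀ (by linarith)]
    linarith
  have hcount : (F.card : ℝ) / p + Z.card * (((q ^ n * p) / p) ^ r * (p / (p - 1))) < 1 := by
    refine lt_of_le_of_lt ?_ hk3
    have h1 : (F.card : ℝ) / p ≤ q ^ n := by rw [div_le_iff₀ hp0]; exact hFc
    have h2 : (q ^ n * p) / p = q ^ n := by field_simp
    rw [h2]
    have h3 : (Z.card : ℝ) * ((q ^ n) ^ r * (p / (p - 1))) ≤ C ^ n * ((q ^ n) ^ r * 2) := by
      apply mul_le_mul hZc _ (by
        have h2 : (2 : ℝ) ≤ p := by exact_mod_cast hp.two_le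
        have h3 : (0 : ℝ) < p - 1 := by linarith
        positivity) (by positivity)
      exact mul_le_mul_of_nonneg_left hp21 (by positivity)
    have h4 : C ^ n * ((q ^ n) ^ r * 2) = 2 * (C * q ^ r) ^ n := by
      rw [mul_pow C (q ^ r) n, ← pow_mul q r n, ← pow_mul q n r, mul_comm n r]; ring
    linarith
  obtain ⟨a, ha1, ha2⟩ := exists_good_a k p r F hFp Z P hPc hPB hBp hcount
  have hdetB : (modMat k p fun j => (a j).val).det = p := det_modMat k p _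
  have hTint : ∀ x : Fin n → ℤ, x ≠ 0 → ‖toE x‖ < T → a ∉ solSet k p x := by
    intro x hx0 hxT
    apply ha1
    rw [hF, Finset.mem_filter, mem_intBall]
    exact ⟨hxT.le, hx0, hxT⟩
  refine ⟨modMat k p fun j => (a j).val, T, hT0, ?_, ?_, ?_, ?_, ?_, ?_⟩
  · push_cast
    exact hT2
  · intro w
    refine ⟨∑ i, modVec k p (fun j => (a j).val) w i ^ 2, ?_⟩
    unfold nsq
    push_cast
    exact Finset.sum_congr rfl fun i _ => by rw [mulVec_modMat]
  · rw [hdetB]; exact hp0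
  · rw [hdetB, hκT, htn]
  · intro w hw
    by_contra hcon
    push Not at hcon
    have h1 : nsq (modMat k p fun j => (a j).val) w = ‖toE (modVec k p (fun j => (a j).val) w)‖ ^ 2 := by
      rw [norm_sq_toE]
      unfold nsq
      push_cast
      exact Finset.sum_congr rfl fun i _ => by rw [mulVec_modMat]
    rw [h1] at hcon
    exact hTint _ (modVec_ne k p hp.ne_zero _ hw)
      (lt_of_pow_lt_pow_left₀ 2 hT0.le hcon) (modVec_mem k p a w)
  · intro G hG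
    apply Nat.le_floor
    refine cluster_det k p r j a hT0 hβ0 hj hτ0 hρ hTint ?_ G hG
    intro z hz x hx hli
    refine ha2 z hz x (fun i => ?_) hli
    rw [hP, Finset.mem_filter, mem_intBall]
    refine ⟨?_, hx i⟩
    have h1 : ‖toE z‖ ≤ (ρ + τ) * √n / (2 * τ) := mem_intBall.1 hz
    have h2 : ‖g • toE z‖ ≤ (ρ + τ) * T := by
      rw [norm_smul, Real.norm_of_nonneg hg0.le]
      calc g * ‖toE z‖ ≤ g * ((ρ + τ) * √n / (2 * τ)) := mul_le_mul_of_nonneg_left h1 hg0.le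
        _ = (ρ + τ) * T := by rw [hg]; field_simp
    calc ‖toE (x i)‖ = ‖(toE (x i) - g • toE z) + g • toE z‖ := by congr 1; abel
      _ ≤ ‖toE (x i) - g • toE z‖ + ‖g • toE z‖ := norm_add_le _ _
      _ ≤ 2 * (ρ + τ) * T := by
        have h3 := hx i
        have h4 : ‖toE (x i) - g • toE z‖ < (ρ + τ) * T := h3
        linarith

end Pool.Agent.N596.LA
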