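import Pool.Agent.N596.LA.Up
import Pool.Agent.N621.SP.Exist

/-! Random lattices `{x ∈ ℤⁿ : x_n ≡ ∑ a_j x_j mod p}`: short vectors and clusters
(for MP_ef2672_gt). -/

open MeasureTheory Metric Filter Set Matrix
open scoped Topology ENNReal

namespace Pool.Agent.N596.LA

open Pool.Agent.H160R3.Herm Pool.Agent.TH220.HG
open Pool.Agent.H390R2.LP (toE toE_sub rd rd_dist intBall mem_intBall cube cube_disj cube_vol
  cube_meas cube_sub_norm)

/-- integer points in a ball -/
theorem card_int_ball {n : ℕ} (hn : 0 < n) (V : Finset (Fin n → ℤ)) (z : EuclideanSpace ℝ (Fin n))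
    {R : ℝ} (hR : 0 ≤ R) (hV : ∀ v ∈ V, ‖toE v - z‖ < R) :
    (V.card : ℝ) ≤ (√(2 * Real.pi * Real.exp 1 / n) * (R + √n)) ^ n := by
  have h1 : volume (⋃ v ∈ V, cube v) = V.card := by
    rw [measure_biUnion_finset (fun v _ w _ h => cube_disj v w h) (fun v _ => cube_meas v)]
    simp [cube_vol]
  have h2 : (V.card : ℝ≥0∞) ≤ volume (ball z (R + √n)) := by
    rw [← h1]
    apply measure_mono
    intro x hx
    simp only [Set.mem_iUnion] at hx
    obtain ⟨v, hv, hx⟩ := hx
    rw [mem_ball_iff_norm]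
    calc ‖x - z‖ ≤ ‖x - toE v‖ + ‖toE v - z‖ := norm_sub_le_norm_sub_add_norm_sub _ _ _
      _ < _ := by linarith [cube_sub_norm v x hx, hV v hv]
  have h3 := h2.trans (volume_ball_le n hn z (R + √n) (by positivity))
  have h4 := ENNReal.toReal_mono ENNReal.ofReal_ne_top h3
  rwa [ENNReal.toReal_natCast, ENNReal.toReal_ofReal (by positivity)] at h4

/-- the number of residues `a` for which `r` given independent vectors lie in the lattice -/
theorem card_multi (k p r : ℕ) [hp : Fact p.Prime] (X : Matrix (Fin r) (Fin (k + 1)) ℤ)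
    (hX : ((X * Xᵀ).det : ZMod p) ≠ 0) :
    ((Finset.univ.filter fun a : Fin k → ZMod p => ∀ i, a ∈ solSet k p (X i)).card : ℝ) ≤
      (p : ℝ) ^ k * ((1 / p) ^ r * (p / (p - 1))) := by
  classical
  set S := Finset.univ.filter fun a : Fin k → ZMod p => ∀ i, a ∈ solSet k p (X i) with hS
  set f := Int.castRingHom (ZMod p) with hf
  set Y : Matrix (Fin r) (Fin (k + 1)) (ZMod p) := X.map f with hY
  have hdet : IsUnit (Y * Yᵀ).det := by
    rw [isUnit_iff_ne_zero]
    have : (Y * Yᵀ).det = ((X * Xᵀ).det : ZMod p) := by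
      have h1 := RingHom.map_det f (X * Xᵀ)
      rw [hY, ← Matrix.transpose_map, ← Matrix.map_mul]
      exact h1.symm
    rw [this]
    exact hX
  set g : (Fin r → ZMod p) → (Fin (k + 1) → ZMod p) := fun y => Yᵀ *ᵥ ((Y * Yᵀ)⁻¹ *ᵥ y) with hg
  have hgr : ∀ y, Y *ᵥ g y = y := by
    intro y
    rw [hg]
    simp only
    rw [Matrix.mulVec_mulVec, Matrix.mulVec_mulVec, Matrix.mul_nonsing_inv _ hdet,
      Matrix.one_mulVec]
  set ext : (Fin k → ZMod p) → (Fin (k + 1) → ZMod p) := fun a =>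
    Fin.addCases (m := k) (n := 1) (fun j => a j) (fun _ => -1) with hext
  have hker : ∀ a ∈ S, Y *ᵥ ext a = 0 := by
    intro a ha
    ext i
    have h1 := (Finset.mem_filter.1 ha).2 i
    unfold solSet at h1
    rw [Finset.mem_filter] at h1
    simp only [Matrix.mulVec, dotProduct, Pi.zero_apply]
    rw [Fin.sum_univ_add]
    simp only [hext, Fin.addCases_left, Fin.addCases_right, Finset.univ_unique,
      Finset.sum_singleton, Fin.default_eq_zero]
    have h2 : ∀ j, Y i j = (X i j : ZMod p) := fun j => rfl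
    simp only [h2]
    rw [h1.2]
    simp only [mul_neg, mul_one]
    rw [← sub_eq_add_neg, sub_eq_zero]
    exact Finset.sum_congr rfl fun j _ => mul_comm _ _
  have hcard : ((Finset.univ : Finset (Fin r → ZMod p)) ×ˢ S ×ˢ
      ((Finset.univ : Finset (ZMod p)).erase 0)).card ≤
      (Finset.univ : Finset (Fin (k + 1) → ZMod p)).card := by
    apply Finset.card_le_card_of_injOn (fun q => g q.1 + q.2.2 • ext q.2.1)
    · intro _ _
      simp
    · rintro ⟨y, a, s⟩ h1 ⟨y', a', s'⟩ h2 h12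
      simp only [Finset.mem_coe, Finset.mem_product, Finset.mem_erase, Finset.mem_univ, true_and,
        and_true] at h1 h2
      simp only at h12
      have hy : y = y' := by
        have h3 := congrArg (fun v => Y *ᵥ v) h12
        simp only [Matrix.mulVec_add, Matrix.mulVec_smul, hgr, hker a h1.1, hker a' h2.1,
          smul_zero, add_zero] at h3
        exact h3
      subst hy
      have h4 := add_left_cancel h12
      have h5 : s = s' := by
        have h6 := congrFun h4 (Fin.natAdd k (0 : Fin 1))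
        simp only [hext, Pi.smul_apply, Fin.addCases_right, smul_eq_mul, mul_neg, mul_one,
          neg_inj] at h6
        exact h6
      subst h5
      have h7 : a = a' := by
        ext j
        have h6 := congrFun h4 (Fin.castAdd 1 j)
        simp only [hext, Pi.smul_apply, Fin.addCases_left, smul_eq_mul] at h6
        exact mul_left_cancel₀ h1.2 h6
      subst h7
      rfl
  rw [Finset.card_product, Finset.card_product, Finset.card_erase_of_mem (Finset.mem_univ _),
    Finset.card_univ, Finset.card_univ, Finset.card_univ, Fintype.card_pi_const,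
    Fintype.card_pi_const, ZMod.card] at hcard
  have hp1 : (1 : ℝ) < p := by exact_mod_cast hp.out.one_lt
  have hp0 : (0 : ℝ) < p := by linarith
  have h8 : (p : ℝ) ^ r * (S.card * (p - 1)) ≤ (p : ℝ) ^ (k + 1) := by
    have h9 : ((p ^ r * (S.card * (p - 1)) : ℕ) : ℝ) ≤ ((p ^ (k + 1) : ℕ) : ℝ) := by
      exact_mod_cast hcard
    push_cast [Nat.cast_sub hp.out.one_lt.le] at h9
    exact h9
  have h10 : (0 : ℝ) < p - 1 := by linarith
  rw [show (p : ℝ) ^ k * ((1 / p) ^ r * (p / (p - 1))) = (p : ℝ) ^ (k + 1) / (p ^ r * (p - 1)) by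
    rw [one_div, inv_pow, pow_succ]; field_simp]
  rw [le_div_iff₀ (by positivity)]
  calc (S.card : ℝ) * ((p : ℝ) ^ r * (p - 1)) = (p : ℝ) ^ r * (S.card * (p - 1)) := by ring
    _ ≤ _ := h8

/-- Gram determinants of independent integer vectors -/
theorem gram_ne {r n : ℕ} (X : Matrix (Fin r) (Fin n) ℤ)
    (hX : LinearIndependent ℝ (fun i => (fun j => (X i j : ℝ) : Fin n → ℝ))) :
    (X * Xᵀ).det ≠ 0 := by
  intro h0
  set f := Int.castRingHom ℝ with hf
  set Y : Matrix (Fin r) (Fin n) ℝ := X.map f with hY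
  have hdet : (Y * Yᵀ).det = 0 := by
    have h1 := RingHom.map_det f (X * Xᵀ)
    rw [hY, ← Matrix.transpose_map, ← Matrix.map_mul]
    rw [h0, map_zero] at h1
    exact h1.symm
  obtain ⟨v, hv, hv0⟩ := Matrix.exists_vecMul_eq_zero_iff.2 hdet
  rw [← Matrix.vecMul_vecMul] at hv0
  have h2 : (v ᵥ* Y) ⬝ᵥ (v ᵥ* Y) = 0 := by
    have h3 : ((v ᵥ* Y) ᵥ* Yᵀ) ⬝ᵥ v = (v ᵥ* Y) ⬝ᵥ (v ᵥ* Y) := by
      rw [← Matrix.dotProduct_mulVec, Matrix.mulVec_transpose]
    rw [← h3, hv0, zero_dotProduct]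
  have h4 : v ᵥ* Y = 0 := by
    rwa [dotProduct_self_eq_zero] at h2
  apply hv
  rw [Fintype.linearIndependent_iff] at hX
  ext i
  refine hX v ?_ i
  ext j
  have h5 := congrFun h4 j
  simp only [Matrix.vecMul, dotProduct, Pi.zero_apply] at h5
  rw [Finset.sum_apply]
  simp only [Pi.smul_apply, smul_eq_mul, Pi.zero_apply]
  exact h5

theorem gram_det_le {r n : ℕ} (X : Matrix (Fin r) (Fin n) ℤ) {B : ℤ}
    (hB : ∀ i, ∑ j, X i j ^ 2 ≤ B) : |(X * Xᵀ).det| ≤ r.factorial * B ^ r := by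
  have h := Matrix.det_le (A := X * Xᵀ) (abv := AbsoluteValue.abs) (x := B) (fun i j => by
    change |(X * Xᵀ) i j| ≤ B
    have h1 : (X * Xᵀ) i j = ∑ l, X i l * X j l := by
      rw [Matrix.mul_apply]; rfl
    rw [h1]
    have h2 := Finset.sum_mul_sq_le_sq_mul_sq Finset.univ (fun l => X i l) (fun l => X j l)
    have h3 := hB i
    have h4 := hB j
    have h5 : 0 ≤ ∑ l, X i l ^ 2 := Finset.sum_nonneg fun _ _ => sq_nonneg _
    have h6 : 0 ≤ ∑ l, X j l ^ 2 := Finset.sum_nonneg fun _ _ => sq_nonneg _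
    apply abs_le_of_sq_le_sq _ (h5.trans h3)
    calc (∑ l, X i l * X j l) ^ 2 ≤ (∑ l, X i l ^ 2) * ∑ l, X j l ^ 2 := h2
      _ ≤ B * B := mul_le_mul h3 h4 h6 (h5.trans h3)
      _ = B ^ 2 := by ring)
  rw [Fintype.card_fin, nsmul_eq_mul] at h
  exact h

/-- the union bound -/
theorem exists_good_a (k p r : ℕ) [hp : Fact p.Prime] {ι : Type*}
    (F : Finset (Fin (k + 1) → ℤ))
    (hF : ∀ x ∈ F, ∃ i, (x i : ZMod p) ≠ 0) (Z : Finset ι) (P : ι → Finset (Fin (k + 1) → ℤ))
    {N : ℝ} (hP : ∀ z ∈ Z, ((P z).card : ℝ) ≤ N) {B : ℤ}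
    (hB : ∀ z ∈ Z, ∀ x ∈ P z, ∑ j, x j ^ 2 ≤ B) (hBp : r.factorial * B ^ r < p)
    (hcount : (F.card : ℝ) / p + Z.card * ((N / p) ^ r * (p / (p - 1))) < 1) :
    ∃ a : Fin k → ZMod p, (∀ x ∈ F, a ∉ solSet k p x) ∧
      ∀ z ∈ Z, ∀ x : Fin r → Fin (k + 1) → ℤ, (∀ i, x i ∈ P z) →
        LinearIndependent ℝ (fun i => (fun j => (x i j : ℝ) : Fin (k + 1) → ℝ)) →
        ∃ i, a ∉ solSet k p (x i) := by
  classical
  have hp1 : (1 : ℝ) < p := by exact_mod_cast hp.out.one_lt
  have hp0 : (0 : ℝ) < p := by linarith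
  have hp2 : (0 : ℝ) < p - 1 := by linarith
  let T : ι → Finset (Fin r → Fin (k + 1) → ℤ) := fun z =>
    (Fintype.piFinset (fun _ : Fin r => P z)).filter
      (fun x => LinearIndependent ℝ (fun i => (fun j => (x i j : ℝ) : Fin (k + 1) → ℝ)))
  let M : (Fin r → Fin (k + 1) → ℤ) → Finset (Fin k → ZMod p) := fun x =>
    Finset.univ.filter fun a : Fin k → ZMod p => ∀ i, a ∈ solSet k p (x i)
  have h1 : ((F.biUnion (solSet k p)).card : ℝ) ≤ F.card * (p ^ k / p) := by
    calc ((F.biUnion (solSet k p)).card : ℝ) ≤ ((∑ x ∈ F, (solSet k p x).card : ℕ) : ℝ) := by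
          exact_mod_cast Finset.card_biUnion_le
      _ = ∑ x ∈ F, ((solSet k p x).card : ℝ) := by push_cast; rfl
      _ ≤ ∑ _x ∈ F, ((p : ℝ) ^ k / p) := by
          apply Finset.sum_le_sum
          intro x hx
          rw [le_div_iff₀ hp0]
          exact_mod_cast card_sol k p x (hF x hx)
      _ = _ := by rw [Finset.sum_const, nsmul_eq_mul]
  have h2 : ∀ z ∈ Z, (((T z).biUnion M).card : ℝ) ≤
      p ^ k * ((N / p) ^ r * (p / (p - 1))) := by
    intro z hz
    have hM : ∀ x ∈ T z, ((M x).card : ℝ) ≤ (p : ℝ) ^ k * ((1 / p) ^ r * (p / (p - 1))) := by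
      intro x hx
      obtain ⟨hx1, hx2⟩ := Finset.mem_filter.1 hx
      rw [Fintype.mem_piFinset] at hx1
      apply card_multi k p r (Matrix.of x)
      have h3 := gram_ne (Matrix.of x) hx2
      have h4 := gram_det_le (Matrix.of x) (B := B) (fun i => hB z hz _ (hx1 i))
      intro h5
      rw [ZMod.intCast_zmod_eq_zero_iff_dvd] at h5
      exact h3 (Int.eq_zero_of_abs_lt_dvd h5 (lt_of_le_of_lt h4 hBp))
    have hT : ((T z).card : ℝ) ≤ N ^ r := by
      calc ((T z).card : ℝ) ≤ ((Fintype.piFinset (fun _ : Fin r => P z)).card : ℝ) := by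
            exact_mod_cast Finset.card_filter_le _ _
        _ = ((P z).card : ℝ) ^ r := by simp
        _ ≤ N ^ r := pow_le_pow_left₀ (by positivity) (hP z hz) r
    calc (((T z).biUnion M).card : ℝ) ≤ ((∑ x ∈ T z, (M x).card : ℕ) : ℝ) := by
          exact_mod_cast Finset.card_biUnion_le
      _ = ∑ x ∈ T z, ((M x).card : ℝ) := by push_cast; rfl
      _ ≤ ∑ _x ∈ T z, ((p : ℝ) ^ k * ((1 / p) ^ r * (p / (p - 1)))) := Finset.sum_le_sum hM
      _ = (T z).card * ((p : ℝ) ^ k * ((1 / p) ^ r * (p / (p - 1)))) := by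
          rw [Finset.sum_const, nsmul_eq_mul]
      _ ≤ N ^ r * ((p : ℝ) ^ k * ((1 / p) ^ r * (p / (p - 1)))) :=
          mul_le_mul_of_nonneg_right hT (by positivity)
      _ = _ := by rw [div_pow, div_pow, one_pow]; ring
  have h3 : ((Z.biUnion fun z => (T z).biUnion M).card : ℝ) ≤
      Z.card * (p ^ k * ((N / p) ^ r * (p / (p - 1)))) := by
    calc ((Z.biUnion fun z => (T z).biUnion M).card : ℝ)
        ≤ ((∑ z ∈ Z, ((T z).biUnion M).card : ℕ) : ℝ) := by
          exact_mod_cast Finset.card_biUnion_le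
      _ = ∑ z ∈ Z, (((T z).biUnion M).card : ℝ) := by push_cast; rfl
      _ ≤ ∑ _z ∈ Z, ((p : ℝ) ^ k * ((N / p) ^ r * (p / (p - 1)))) := Finset.sum_le_sum h2
      _ = _ := by rw [Finset.sum_const, nsmul_eq_mul]
  set Bad := F.biUnion (solSet k p) ∪ Z.biUnion fun z => (T z).biUnion M with hBad
  have h4 : (Bad.card : ℝ) < p ^ k := by
    calc (Bad.card : ℝ) ≤ ((F.biUnion (solSet k p)).card : ℝ) +
          ((Z.biUnion fun z => (T z).biUnion M).card : ℝ) := by
          exact_mod_cast Finset.card_union_le _ _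
      _ ≤ F.card * (p ^ k / p) + Z.card * (p ^ k * ((N / p) ^ r * (p / (p - 1)))) :=
          add_le_add h1 h3
      _ = p ^ k * ((F.card : ℝ) / p + Z.card * ((N / p) ^ r * (p / (p - 1)))) := by ring
      _ < p ^ k * 1 := mul_lt_mul_of_pos_left hcount (by positivity)
      _ = p ^ k := mul_one _
  have h5 : Bad.card < p ^ k := by exact_mod_cast h4
  have h6 : Bad ≠ Finset.univ := by
    intro h
    rw [h, Finset.card_univ, Fintype.card_pi_const, ZMod.card] at h5
    exact lt_irrefl _ h5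
  obtain ⟨a, ha⟩ : ∃ a, a ∉ Bad := by
    by_contra hcon
    push Not at hcon
    exact h6 (Finset.eq_univ_of_forall hcon)
  rw [hBad, Finset.mem_union, not_or] at ha
  refine ⟨a, fun x hx hax => ha.1 (Finset.mem_biUnion.2 ⟨x, hx, hax⟩), fun z hz x hx hli => ?_⟩
  by_contra hcon
  push Not at hcon
  apply ha.2
  rw [Finset.mem_biUnion]
  refine ⟨z, hz, Finset.mem_biUnion.2 ⟨x, ?_, ?_⟩⟩
  · exact Finset.mem_filter.2 ⟨Fintype.mem_piFinset.2 hx, hli⟩
  · exact Finset.mem_filter.2 ⟨Finset.mem_univ _, hcon⟩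

/-- separated points in a ball without many independent points -/
theorem pack_dim {E : Type*} [NormedAddCommGroup E] [InnerProductSpace ℝ E] (P : Finset E)
    {r : ℕ} {T ρ : ℝ} (hT : 0 < T) (hρ : 0 ≤ ρ)
    (hsep : ∀ x ∈ P, ∀ y ∈ P, x ≠ y → T ≤ dist x y) (hn : ∀ x ∈ P, ‖x‖ ≤ ρ * T)
    (hr : ∀ v : Fin r → E, (∀ i, v i ∈ P) → ¬ LinearIndependent ℝ v) :
    (P.card : ℝ) ≤ (2 * ρ + 1) ^ r := by
  classical
  set V := Submodule.span ℝ (P : Set E) with hV
  have hfd : FiniteDimensional ℝ V := FiniteDimensional.span_finset ℝ P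
  have hfr : Module.finrank ℝ V ≤ r := by
    by_contra hcon
    push Not at hcon
    obtain ⟨f, hf1, -, hf3⟩ := Submodule.exists_fun_fin_finrank_span_eq ℝ (P : Set E)
    apply hr (fun i => f (Fin.castLE hcon.le i)) (fun i => hf1 _)
    exact hf3.comp _ (Fin.castLE_injective hcon.le)
  let φ : E → V := fun x => if h : x ∈ P then (2 / T) • ⟨x, Submodule.subset_span h⟩ else 0
  have hφ : ∀ x (h : x ∈ P), φ x = (2 / T) • (⟨x, Submodule.subset_span h⟩ : V) := by
    intro x h
    simp only [φ, dif_pos h]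
  have hφd : ∀ x ∈ P, ∀ y ∈ P, dist (φ x) (φ y) = 2 / T * dist x y := by
    intro x hx y hy
    rw [hφ x hx, hφ y hy, dist_smul₀, Real.norm_of_nonneg (by positivity)]
    rfl
  have hinj : Set.InjOn φ P := by
    intro x hx y hy hxy
    have h1 := hφd x hx y hy
    rw [hxy, dist_self] at h1
    have h2 : dist x y = 0 := by
      rcases mul_eq_zero.1 h1.symm with h | h
      · exact absurd h (by positivity)
      · exact h
    exact dist_eq_zero.1 h2
  let _ : MeasurableSpace V := borel V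
  have : BorelSpace V := ⟨rfl⟩
  have h := Pool.Agent.H818R2.card_le (P := P.image φ) (c := (0 : V)) (R := 2 * ρ) (by
    intro a ha b hb hab
    obtain ⟨x, hx, rfl⟩ := Finset.mem_image.1 ha
    obtain ⟨y, hy, rfl⟩ := Finset.mem_image.1 hb
    rw [hφd x hx y hy]
    have h1 := hsep x hx y hy (fun h => hab (by rw [h]))
    calc (2 : ℝ) = 2 / T * T := by field_simp
      _ ≤ _ := mul_le_mul_of_nonneg_left h1 (by positivity)) (by positivity) (by
    intro a ha
    obtain ⟨x, hx, rfl⟩ := Finset.mem_image.1 ha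
    rw [dist_zero_right, hφ x hx, norm_smul, Real.norm_of_nonneg (by positivity)]
    have h1 : ‖(⟨x, Submodule.subset_span hx⟩ : V)‖ ≤ ρ * T := hn x hx
    calc 2 / T * ‖(⟨x, Submodule.subset_span hx⟩ : V)‖ ≤ 2 / T * (ρ * T) :=
          mul_le_mul_of_nonneg_left h1 (by positivity)
      _ = 2 * ρ := by field_simp)
  rw [Finset.card_image_of_injOn hinj] at h
  exact h.trans (pow_le_pow_right₀ (by linarith) hfr)

end Pool.Agent.N596.LA
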