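import Pool.Agent.N596.LA.Num

/-! The orthogonal sum of a lattice and `T ℤ` (for MP_ef2672_gt). -/

open MeasureTheory Metric Filter Set Matrix
open scoped Topology ENNReal

namespace Pool.Agent.N596.LA

open Pool.Agent.H160R3.Herm Pool.Agent.TH220.HG

/-- the orthogonal sum of the lattice of `B` and `T ℤ` -/
noncomputable def sumMat {m : ℕ} (B : Matrix (Fin m) (Fin m) ℝ) (T : ℝ) :
    Matrix (Fin (m + 1)) (Fin (m + 1)) ℝ :=
  Matrix.reindex finSumFinEquiv finSumFinEquiv
    (Matrix.fromBlocks B (0 : Matrix (Fin m) (Fin 1) ℝ) (0 : Matrix (Fin 1) (Fin m) ℝ)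
      (Matrix.of fun (_ : Fin 1) (_ : Fin 1) => T))

theorem det_sumMat {m : ℕ} (B : Matrix (Fin m) (Fin m) ℝ) (T : ℝ) :
    (sumMat B T).det = B.det * T := by
  rw [sumMat, Matrix.det_reindex_self, Matrix.det_fromBlocks_zero₁₂]
  simp

/-- the coordinates of the first part -/
def fstPart {m : ℕ} (w : Fin (m + 1) → ℤ) : Fin m → ℤ := fun j => w (Fin.castAdd 1 j)

theorem nsq_sumMat {m : ℕ} (B : Matrix (Fin m) (Fin m) ℝ) (T : ℝ) (w : Fin (m + 1) → ℤ) :
    nsq (sumMat B T) w = nsq B (fstPart w) + T ^ 2 * (w (Fin.natAdd m 0) : ℝ) ^ 2 := by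
  unfold nsq
  rw [Fin.sum_univ_add]
  congr 1
  · refine Finset.sum_congr rfl fun i _ => ?_
    congr 1
    simp only [Matrix.mulVec, dotProduct]
    rw [Fin.sum_univ_add]
    simp [sumMat, fstPart]
  · simp only [Finset.univ_unique, Fin.default_eq_zero, Finset.sum_singleton]
    rw [← mul_pow]
    congr 1
    simp only [Matrix.mulVec, dotProduct]
    rw [Fin.sum_univ_add]
    simp [sumMat]

theorem eq_of_parts {m : ℕ} {v w : Fin (m + 1) → ℤ} (h1 : fstPart v = fstPart w)
    (h2 : v (Fin.natAdd m 0) = w (Fin.natAdd m 0)) : v = w := by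
  ext i
  refine Fin.addCases (m := m) (n := 1) (motive := fun i => v i = w i) (fun j => ?_)
    (fun j => ?_) i
  · exact congrFun h1 j
  · have hj : j = 0 := Subsingleton.elim _ _
    subst hj
    exact h2

theorem minSq_sumMat {m : ℕ} {B : Matrix (Fin m) (Fin m) ℝ} {T : ℝ}
    (hB : ∀ w : Fin m → ℤ, w ≠ 0 → T ^ 2 ≤ nsq B w) : minSq (sumMat B T) = T ^ 2 := by
  apply le_antisymm
  · set e : Fin (m + 1) → ℤ := Fin.addCases (m := m) (n := 1) (fun _ => 0) (fun _ => 1) with he
    have he1 : e (Fin.natAdd m 0) = 1 := by simp only [he, Fin.addCases_right]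
    have he0 : e ≠ 0 := by
      intro h
      rw [h] at he1
      simp at he1
    have h1 : nsq (sumMat B T) e = T ^ 2 := by
      rw [nsq_sumMat, he1]
      have h2 : fstPart e = 0 := by
        ext j
        simp only [fstPart, he, Fin.addCases_left, Pi.zero_apply]
      rw [h2]
      have h3 : nsq B 0 = 0 := by
        have := nsq_smul B 0 0
        simpa using this
      rw [h3]
      simp
    rw [← h1]
    exact minSq_le _ e he0
  · apply le_minSq (n := m + 1) (Nat.succ_pos m)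
    intro w hw
    change T ^ 2 ≤ nsq (sumMat B T) w
    rw [nsq_sumMat]
    by_cases h : fstPart w = 0
    · have h1 : w (Fin.natAdd m 0) ≠ 0 := by
        intro h2
        apply hw
        apply eq_of_parts _ h2
        rw [h]; rfl
      have h2 : (1 : ℝ) ≤ (w (Fin.natAdd m 0) : ℝ) ^ 2 := by
        have : (1 : ℤ) ≤ w (Fin.natAdd m 0) ^ 2 := by
          have := Int.one_le_abs h1
          rw [← sq_abs]
          nlinarith
        exact_mod_cast this
      have h3 := nsq_nonneg B (fstPart w)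
      nlinarith [sq_nonneg T]
    · have h1 := hB _ h
      have h2 : 0 ≤ T ^ 2 * (w (Fin.natAdd m 0) : ℝ) ^ 2 := by positivity
      linarith

theorem clustersLE_sumMat {m : ℕ} {B : Matrix (Fin m) (Fin m) ℝ} {T β : ℝ} (hT : 0 < T)
    (hβ : 0 < β) (hB : ∀ w : Fin m → ℤ, w ≠ 0 → T ^ 2 ≤ nsq B w) {K : ℕ}
    (hK : ∀ F : Finset (Fin m → ℤ),
        (∀ v ∈ F, ∀ w ∈ F, v ≠ w → nsq B (v - w) < (β * T) ^ 2) → F.card ≤ K) :
    ClustersLE (sumMat B T) β (K * (2 * ⌈β⌉₊ + 1)) := by
  classical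
  intro F hF
  rw [minSq_sumMat hB, ← mul_pow] at hF
  rcases F.eq_empty_or_nonempty with rfl | ⟨v₀, hv₀⟩
  · simp
  set b : ℤ := (⌈β⌉₊ : ℤ) with hb
  have hbβ : β ≤ b := by
    have := Nat.le_ceil β
    exact_mod_cast this
  set J := Finset.Icc (v₀ (Fin.natAdd m 0) - b) (v₀ (Fin.natAdd m 0) + b) with hJ
  have hmaps : ∀ v ∈ F, v (Fin.natAdd m 0) ∈ J := by
    intro v hv
    by_cases hne : v = v₀
    · subst hne
      rw [hJ, Finset.mem_Icc]
      constructor <;> omega
    have h1 := hF v hv v₀ hv₀ hne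
    rw [nsq_sumMat] at h1
    have h2 := nsq_nonneg B (fstPart (v - v₀))
    have h3 : T ^ 2 * ((v - v₀) (Fin.natAdd m 0) : ℝ) ^ 2 < T ^ 2 * β ^ 2 := by nlinarith
    have h4 := lt_of_mul_lt_mul_left h3 (by positivity)
    have h5 := abs_lt_of_sq_lt_sq h4 hβ.le
    have h6 : |((v - v₀) (Fin.natAdd m 0) : ℝ)| ≤ (b : ℝ) := h5.le.trans hbβ
    have h7 : |(v - v₀) (Fin.natAdd m 0)| ≤ b := by exact_mod_cast h6
    rw [abs_le] at h7
    simp only [Pi.sub_apply] at h7
    rw [hJ, Finset.mem_Icc]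
    constructor <;> omega
  have hfib : ∀ c ∈ J, (F.filter (fun v => v (Fin.natAdd m 0) = c)).card ≤ K := by
    intro c _
    have hinj : Set.InjOn (fstPart (m := m)) (F.filter (fun v => v (Fin.natAdd m 0) = c)) := by
      intro v hv w hw hvw
      rw [Finset.mem_coe, Finset.mem_filter] at hv hw
      exact eq_of_parts hvw (hv.2.trans hw.2.symm)
    rw [← Finset.card_image_of_injOn hinj]
    apply hK
    intro v' hv' w' hw' hvw
    obtain ⟨v, hv, rfl⟩ := Finset.mem_image.1 hv'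
    obtain ⟨w, hw, rfl⟩ := Finset.mem_image.1 hw'
    rw [Finset.mem_filter] at hv hw
    have h1 := hF v hv.1 w hw.1 (fun h => hvw (by rw [h]))
    rw [nsq_sumMat] at h1
    have h2 : (v - w) (Fin.natAdd m 0) = 0 := by
      simp only [Pi.sub_apply]
      rw [hv.2, hw.2, sub_self]
    rw [h2] at h1
    have h3 : fstPart (v - w) = fstPart v - fstPart w := rfl
    rw [h3] at h1
    simpa using h1
  have h1 := Finset.card_le_mul_card_image_of_maps_to hmaps K hfib
  refine h1.trans (le_of_eq ?_)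
  rw [hJ, Int.card_Icc]
  congr 1
  omega

end Pool.Agent.N596.LA
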