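import Pool.Agent.TH220.HG.Vol
import Pool.Agent.TH220.HG.Cor
import Pool.Agent.N621.SP.Upper
import Pool.Agent.H390R2.LP.Hermite

/-! Lattices with small clusters: upper bounds (for MP_ef2672_gt). -/

open MeasureTheory Metric Filter Set
open scoped Topology ENNReal

namespace Pool.Agent.N596.LA

open Pool.Agent.H160R3.Herm Pool.Agent.TH220.HG

/-- `ENNReal`-valued and real upper densities -/
theorem enn_le_real {n : ℕ} (X : Set (EuclideanSpace ℝ (Fin n))) (r : ℝ) :
    Pool.Agent.H390R2.LP.upperDensity X r ≤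
      ENNReal.ofReal (Pool.Agent.H818R2.upperDensity X r) := by
  set u := Pool.Agent.H818R2.upperDensity X r with hu
  have hratio : ∀ R : ℝ, volume.real (ball (0 : EuclideanSpace ℝ (Fin n)) R ∩
      Pool.Agent.H818R2.body X r) / volume.real (ball (0 : EuclideanSpace ℝ (Fin n)) R) ≤ 1 := by
    intro R
    apply div_le_one_of_le₀ _ measureReal_nonneg
    exact measureReal_mono inter_subset_left measure_ball_lt_top.ne
  have hbdd : IsBoundedUnder (· ≤ ·) atTop (fun R : ℝ => volume.real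
      (ball (0 : EuclideanSpace ℝ (Fin n)) R ∩ Pool.Agent.H818R2.body X r) /
      volume.real (ball (0 : EuclideanSpace ℝ (Fin n)) R)) :=
    isBoundedUnder_of ⟨1, hratio⟩
  have hu0 : 0 ≤ u := by
    apply le_limsup_of_le hbdd
    intro b hb
    obtain ⟨R, hR⟩ := hb.exists
    exact (by positivity : (0 : ℝ) ≤ _).trans hR
  refine ENNReal.le_of_forall_pos_le_add fun ε hε _ => ?_
  have h1 : ∀ᶠ R : ℝ in atTop, volume.real (ball (0 : EuclideanSpace ℝ (Fin n)) R ∩
      Pool.Agent.H818R2.body X r) / volume.real (ball (0 : EuclideanSpace ℝ (Fin n)) R) < u + ε :=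
    eventually_lt_of_limsup_lt (by
      change u < u + ε
      have : (0 : ℝ) < ε := by exact_mod_cast hε
      linarith) hbdd
  rw [show (ε : ℝ≥0∞) = ENNReal.ofReal (ε : ℝ) by rw [ENNReal.ofReal_coe_nnreal],
    ← ENNReal.ofReal_add hu0 (NNReal.coe_nonneg ε)]
  unfold Pool.Agent.H390R2.LP.upperDensity
  apply limsup_le_of_le
  · isBoundedDefault
  · filter_upwards [h1, eventually_gt_atTop 0] with R hR hR0
    rw [← ENNReal.ofReal_toReal (a := volume (ball (0 : EuclideanSpace ℝ (Fin n)) R ∩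
      ⋃ x ∈ X, ball x r) / volume (ball (0 : EuclideanSpace ℝ (Fin n)) R))]
    · apply ENNReal.ofReal_le_ofReal
      rw [ENNReal.toReal_div]
      exact hR.le
    · apply ENNReal.div_ne_top
      · exact ((measure_mono inter_subset_left).trans_lt measure_ball_lt_top).ne
      · exact (measure_ball_pos volume _ hR0).ne'

/-- Every set of vectors of the lattice `A ℤⁿ` with mutual distances less than `β λ₁` has at most
`K` elements (in coordinates). -/
def ClustersLE {n : ℕ} (A : Matrix (Fin n) (Fin n) ℝ) (β : ℝ) (K : ℕ) : Prop :=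
  ∀ F : Finset (Fin n → ℤ), (∀ v ∈ F, ∀ w ∈ F, v ≠ w → nsq A (v - w) < β ^ 2 * minSq A) →
    F.card ≤ K

theorem pt_eq {n : ℕ} (A : Matrix (Fin n) (Fin n) ℝ) (w : Fin n → ℤ) :
    pt A w = A.toLpLin 2 2 (Pool.Agent.H390R2.LP.toE w) := rfl

theorem clusterLE_lat {n : ℕ} {A : Matrix (Fin n) (Fin n) ℝ} {β : ℝ} {K : ℕ} (hK : ClustersLE A β K) :
    Pool.Agent.N621.SP.ClusterLE (Pool.Agent.H390R2.LP.lat A) (β * √(minSq A)) K := by
  classical
  intro Q hQ hQd
  have hex : ∀ x ∈ Q, ∃ w : Fin n → ℤ, pt A w = x := by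
    intro x hx
    obtain ⟨w, hw⟩ := hQ hx
    exact ⟨w, hw⟩
  choose! f hf using hex
  have hinj : Set.InjOn f Q := by
    intro x hx y hy hxy
    rw [← hf x hx, ← hf y hy, hxy]
  rw [← Finset.card_image_of_injOn hinj]
  apply hK
  intro v hv w hw hvw
  obtain ⟨x, hx, rfl⟩ := Finset.mem_image.1 hv
  obtain ⟨y, hy, rfl⟩ := Finset.mem_image.1 hw
  have hxy : x ≠ y := fun h => hvw (by rw [h])
  have h1 := hQd x hx y hy hxy
  rw [← dist_pt, hf x hx, hf y hy]
  have h2 := pow_lt_pow_left₀ h1 dist_nonneg two_ne_zero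
  rwa [mul_pow, Real.sq_sqrt (minSq_nonneg A)] at h2

theorem lat_isPacking {n : ℕ} (hn : 0 < n) {A : Matrix (Fin n) (Fin n) ℝ} (hA : A.det ≠ 0) :
    Pool.Agent.H818R2.IsPacking (Pool.Agent.H390R2.LP.lat A) (√(minSq A) / 2) :=
  Pool.Agent.H390R2.LP.lat_packing A _ (minSq_pos hn hA) fun w hw => minSq_le A w hw

/-- the inequality in dimension `n` -/
theorem cluster_upper {n : ℕ} (hn : 0 < n) {A : Matrix (Fin n) (Fin n) ℝ} (hA : A.det ≠ 0) {β : ℝ}
    (hβ : 0 < β) {K m : ℕ} (hm : 1 ≤ m) (hK : ClustersLE A β K) :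
    (2 * Real.pi * Real.exp 1 * (1 / 4 * gam A / n)) ^ ((n : ℝ) / 2) ≤
      3 * n * ((K + m).choose m * √((m + 1) / (2 * m * β ^ 2)) ^ n) := by
  have hn' : (0 : ℝ) < n := by exact_mod_cast hn
  have hd : 0 < |A.det| := abs_pos.2 hA
  have hP := lat_isPacking hn hA
  have h1 := Pool.Agent.N621.SP.cluster_bound hP hβ (K := K) (m := m) (by
    have h := clusterLE_lat hK
    have e : 2 * β * (√(minSq A) / 2) = β * √(minSq A) := by ring
    rw [e]; exact h) hm
  rw [finrank_euclideanSpace_fin] at h1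
  have h2 := (Pool.Agent.H390R2.LP.density_lat hn A hA _ hP).trans (enn_le_real _ _)
  have h3 := Pool.Agent.H390R2.LP.volume_ball_ge n hn 0 (√(minSq A) / 2) (by positivity)
  have h4 : ENNReal.ofReal ((√(2 * Real.pi * Real.exp 1 / n) * (√(minSq A) / 2)) ^ n / (3 * n) /
      |A.det|) ≤ ENNReal.ofReal
        (Pool.Agent.H818R2.upperDensity (Pool.Agent.H390R2.LP.lat A) (√(minSq A) / 2)) := by
    rw [ENNReal.ofReal_div_of_pos hd]
    exact (ENNReal.div_le_div_right h3 _).trans h2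
  have hM : (0 : ℝ) < (K + m).choose m := by
    exact_mod_cast Nat.choose_pos (by omega)
  have h5 : (√(2 * Real.pi * Real.exp 1 / n) * (√(minSq A) / 2)) ^ n / (3 * n) / |A.det| ≤
      (K + m).choose m * √((m + 1) / (2 * m * β ^ 2)) ^ n := by
    have h6 := h4.trans (ENNReal.ofReal_le_ofReal h1)
    rwa [ENNReal.ofReal_le_ofReal_iff (by positivity)] at h6
  have e1 : √(minSq A) / 2 = √(1 / 4 * minSq A) := by
    rw [Real.sqrt_mul (by norm_num), show (1 : ℝ) / 4 = (1 / 2) ^ 2 by norm_num,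
      Real.sqrt_sq (by norm_num)]
    ring
  have e2 := gam_rpow hn hA (c := 2 * Real.pi * Real.exp 1) (t := 1 / 4) (by positivity)
    (by norm_num)
  rw [← e2, ← e1]
  calc (√(2 * Real.pi * Real.exp 1 / n) * (√(minSq A) / 2)) ^ n / |A.det|
      = 3 * n * ((√(2 * Real.pi * Real.exp 1 / n) * (√(minSq A) / 2)) ^ n / (3 * n) / |A.det|) := by
        field_simp
    _ ≤ _ := mul_le_mul_of_nonneg_left h5 (by positivity)

/-- the inequality in dimension `n`, for the Hermite invariant -/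
theorem gam_upper {n : ℕ} (hn : 0 < n) {A : Matrix (Fin n) (Fin n) ℝ} (hA : A.det ≠ 0) {β : ℝ}
    (hβ : 0 < β) {K m : ℕ} (hm : 1 ≤ m) (hK : ClustersLE A β K) :
    gam A / n ≤ (3 * n * (K + m).choose m : ℝ) ^ ((2 : ℝ) / n) *
      ((1 + 1 / m) / (Real.pi * Real.exp 1 * β ^ 2)) := by
  have hn' : (0 : ℝ) < n := by exact_mod_cast hn
  have hm' : (0 : ℝ) < m := by exact_mod_cast hm
  have hg := gam_nonneg A
  have h := cluster_upper hn hA hβ hm hK
  have h1 := Real.rpow_le_rpow (by positivity) h (show (0 : ℝ) ≤ 2 / n by positivity)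
  rw [← Real.rpow_mul (by positivity), show (n : ℝ) / 2 * (2 / n) = 1 by field_simp,
    Real.rpow_one, ← mul_assoc, Real.mul_rpow (by positivity) (by positivity)] at h1
  have e1 : (√((m + 1) / (2 * m * β ^ 2)) ^ n) ^ ((2 : ℝ) / n) = (m + 1) / (2 * m * β ^ 2) := by
    rw [← Real.rpow_natCast, ← Real.rpow_mul (by positivity),
      show (n : ℝ) * (2 / n) = ((2 : ℕ) : ℝ) by field_simp; norm_num, Real.rpow_natCast,
      Real.sq_sqrt (by positivity)]
  rw [e1] at h1
  have hpe : 0 < Real.pi * Real.exp 1 := by positivity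
  have e2 : gam A / n = (2 / (Real.pi * Real.exp 1)) *
      (2 * Real.pi * Real.exp 1 * (1 / 4 * gam A / n)) := by
    field_simp
    ring
  rw [e2]
  refine (mul_le_mul_of_nonneg_left h1 (by positivity)).trans (le_of_eq ?_)
  field_simp

end Pool.Agent.N596.LA
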